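import Mathlib

/-!
Definitions used in the final statement.
-/

set_option autoImplicit false

namespace Pool.Agent.SS

open NumberField IsDedekindDomain

variable {K : Type} [Field K] [NumberField K]

/-- The Weierstrass curve `W` over the ring of integers has good supersingular reduction at `v`:
the discriminant is not in `v` and the number of points of the reduced curve over the residue
field is `1` modulo the residue characteristic `p` (that is, `p` divides the trace of
Frobenius). -/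
def SSRed (W : WeierstrassCurve (𝓞 K)) (v : HeightOneSpectrum (𝓞 K)) : Prop :=
  W.Δ ∉ v.asIdeal ∧ ∃ p : ℕ, p.Prime ∧ (p : 𝓞 K) ∈ v.asIdeal ∧
    Nat.card (W.map (Ideal.Quotient.mk v.asIdeal)).toAffine.Point ≡ 1 [MOD p]

/-- The invariant `j = c₄ ^ 3 / Δ` of `W` is integral at `v` and congruent to `n` modulo `v`. -/
def JMod (W : WeierstrassCurve (𝓞 K)) (v : HeightOneSpectrum (𝓞 K)) (n : ℤ) : Prop :=
  ∃ α β : 𝓞 K, β ∉ v.asIdeal ∧ β * W.c₄ ^ 3 = α * W.Δ ∧ α - n * β ∈ v.asIdeal

/-- The invariant `j = c₄ ^ 3 / Δ` of `W` is integral at the place `v` above `q` and its residue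
is the invariant of a supersingular elliptic curve `W'` over the residue field (for `q ≥ 5`: `W`
has potentially good supersingular reduction at `v`). -/
def PSS (q : ℕ) (W : WeierstrassCurve (𝓞 K)) (v : HeightOneSpectrum (𝓞 K)) : Prop :=
  ∃ W' : WeierstrassCurve (𝓞 K ⧸ v.asIdeal), W'.Δ ≠ 0 ∧
    (∃ α β : 𝓞 K, β ∉ v.asIdeal ∧ β * W.c₄ ^ 3 = α * W.Δ ∧
      Ideal.Quotient.mk v.asIdeal β * W'.c₄ ^ 3 = Ideal.Quotient.mk v.asIdeal α * W'.Δ) ∧
    Nat.card W'.toAffine.Point ≡ 1 [MOD q]

/-- The places `v` above `q` of odd residue degree at which `W` has potentially good supersingular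
reduction. -/
def Sig (q : ℕ) (W : WeierstrassCurve (𝓞 K)) : Set (HeightOneSpectrum (𝓞 K)) :=
  {v | (q : 𝓞 K) ∈ v.asIdeal ∧ (∃ f : ℕ, Odd f ∧ Nat.card (𝓞 K ⧸ v.asIdeal) = q ^ f) ∧
    PSS q W v}

end Pool.Agent.SS
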