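import Mathlib
import Pool.Agent.Work.MP_a5099b_nt.Defs
import Pool.Agent.Work.MP_a5099b_nt.J.Stmt

/-!
Auxiliary definitions for block J.
-/

set_option autoImplicit false

namespace Pool.Agent.SS.J

open NumberField IsDedekindDomain Polynomial

noncomputable section

/-- The homogenized value `b ^ (deg F) * F(a / b)`. -/
def HV {A : Type*} [CommRing A] (F : ℤ[X]) (a b : A) : A :=
  ∑ i ∈ Finset.range (F.natDegree + 1), (F.coeff i : A) * a ^ i * b ^ (F.natDegree - i)

/-- The valuation of a nonzero integer `x` at `v`. -/
def ord {K : Type} [Field K] [NumberField K] (v : HeightOneSpectrum (𝓞 K)) (x : 𝓞 K) : ℕ :=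
  (Associates.mk v.asIdeal).count (Associates.mk (Ideal.span {x})).factors

end

end Pool.Agent.SS.J
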