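import Pool.Agent.Work.MP_a5099b_nt.J.Defs

/-!
# Module J/HVal (S): algebra of the homogenized values

* `HV_map`: clear (`map_sum`).
* `HV_field`: `b ^ d (a / b) ^ i = a ^ i b ^ (d - i)` for `i <= d`; `aeval_eq_sum_range`.
* `HV_scale`: `(t a) ^ i (t b) ^ (d - i) = t ^ d a ^ i b ^ (d - i)`.
* `HV_zero_right`: only `i = d` survives, the coefficient is 1.
* `HV_sq`: `F` monic of even degree `d = 2 e`, `F = R ^ 2 mod l`, `l` prime. In `(ZMod l)[X]`:
  `F.map = (R.map) ^ 2`, so `(R.map).natDegree = e` (natDegree_pow, domain, `F.map` monic of degree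
  `d`). Let `R1 : ℤ[X]` be a lift of `R.map` of natDegree `≤ e`: e.g.
  `R1 = ∑ i ∈ range (e + 1), C (R.coeff i) * X ^ i`. Then `l` divides all the coefficients of
  `F - R1 ^ 2`, which has natDegree `≤ 2 e`. Put `γ = ∑ i ∈ range (e+1), R1.coeff i a ^ i b ^ (e-i)`.
  `γ ^ 2 = ∑ k ∈ range (2 e + 1), (R1 ^ 2).coeff k a ^ k b ^ (2 e - k)` (double sum; or prove the
  following general lemma: for `P, Q : ℤ[X]` of natDegree `≤ m`, `≤ n` the value
  `V m P = ∑ i ∈ range (m+1), P.coeff i a^i b^(m-i)` satisfies `V (m+n) (P Q) = V m P * V n Q`;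
  e.g. by linearity it is enough to treat monomials, or via `Polynomial.homogenize` /
  `reflect`). The difference is `∑ (F - R1 ^ 2).coeff k a^k b^(2e-k) = l δ`.
-/

set_option autoImplicit false

namespace Pool.Agent.SS.J

open NumberField IsDedekindDomain Polynomial

private noncomputable def V {A : Type*} [CommRing A] (m : ℕ) (P : ℤ[X]) (a b : A) : A :=
  ∑ i ∈ Finset.range (m + 1), (P.coeff i : A) * a ^ i * b ^ (m - i)

private theorem V_monomial {A : Type*} [CommRing A] {m i : ℕ} (hi : i ≤ m) (c : ℤ) (a b : A) :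
    V m (monomial i c) a b = (c : A) * a ^ i * b ^ (m - i) := by
  unfold V
  rw [Finset.sum_eq_single i]
  · rw [coeff_monomial, if_pos rfl]
  · intro j _ hj
    rw [coeff_monomial, if_neg (Ne.symm hj), Int.cast_zero, zero_mul, zero_mul]
  · intro h
    exact absurd (Finset.mem_range.2 (by omega)) h

private theorem V_sum {A : Type*} [CommRing A] {ι : Type*} (m : ℕ) (s : Finset ι) (P : ι → ℤ[X])
    (a b : A) : V m (∑ j ∈ s, P j) a b = ∑ j ∈ s, V m (P j) a b := by
  unfold V
  rw [Finset.sum_comm]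
  refine Finset.sum_congr rfl fun i _ => ?_
  rw [finsetSum_coeff, Int.cast_sum, Finset.sum_mul, Finset.sum_mul]

private theorem V_add {A : Type*} [CommRing A] (m : ℕ) (P Q : ℤ[X]) (a b : A) :
    V m (P + Q) a b = V m P a b + V m Q a b := by
  unfold V
  rw [← Finset.sum_add_distrib]
  refine Finset.sum_congr rfl fun i _ => ?_
  rw [coeff_add, Int.cast_add]
  ring

private theorem V_C_mul {A : Type*} [CommRing A] (m : ℕ) (c : ℤ) (P : ℤ[X]) (a b : A) :
    V m (C c * P) a b = c * V m P a b := by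
  unfold V
  rw [Finset.mul_sum]
  refine Finset.sum_congr rfl fun i _ => ?_
  rw [coeff_C_mul, Int.cast_mul]
  ring

private theorem V_mul {A : Type*} [CommRing A] {m n : ℕ} {P Q : ℤ[X]} (hP : P.natDegree ≤ m)
    (hQ : Q.natDegree ≤ n) (a b : A) : V (m + n) (P * Q) a b = V m P a b * V n Q a b := by
  have e1 : P * Q = ∑ i ∈ Finset.range (m + 1), ∑ j ∈ Finset.range (n + 1),
      monomial (i + j) (P.coeff i * Q.coeff j) := by
    conv_lhs => rw [as_sum_range' P (m + 1) (by omega), as_sum_range' Q (n + 1) (by omega)]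
    rw [Finset.sum_mul_sum]
    refine Finset.sum_congr rfl fun i _ => Finset.sum_congr rfl fun j _ => ?_
    rw [monomial_mul_monomial]
  rw [e1, V_sum]
  have e2 : V m P a b * V n Q a b = ∑ i ∈ Finset.range (m + 1), ∑ j ∈ Finset.range (n + 1),
      ((P.coeff i : A) * a ^ i * b ^ (m - i)) * ((Q.coeff j : A) * a ^ j * b ^ (n - j)) := by
    unfold V
    rw [Finset.sum_mul_sum]
  rw [e2]
  refine Finset.sum_congr rfl fun i hi => ?_
  rw [V_sum]
  refine Finset.sum_congr rfl fun j hj => ?_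
  have hi' := Finset.mem_range.1 hi
  have hj' := Finset.mem_range.1 hj
  rw [V_monomial (by omega)]
  have e3 : m + n - (i + j) = (m - i) + (n - j) := by omega
  rw [e3, pow_add, pow_add, Int.cast_mul]
  ring

theorem HV_map {A B : Type*} [CommRing A] [CommRing B] (f : A →+* B) (F : ℤ[X]) (a b : A) :
    f (HV F a b) = HV F (f a) (f b) := by
  unfold HV
  rw [map_sum]
  refine Finset.sum_congr rfl fun i _ => ?_
  rw [map_mul, map_mul, map_pow, map_pow, map_intCast]

theorem HV_field {k : Type*} [Field k] (F : ℤ[X]) (a b : k) (hb : b ≠ 0) :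
    HV F a b = b ^ F.natDegree * aeval (a / b) F := by
  unfold HV
  rw [aeval_eq_sum_range, Finset.mul_sum]
  refine Finset.sum_congr rfl fun i hi => ?_
  have hi' := Finset.mem_range.1 hi
  have e : F.natDegree = (F.natDegree - i) + i := by omega
  have e2 : b ^ F.natDegree = b ^ (F.natDegree - i) * b ^ i := by
    rw [← pow_add, ← e]
  rw [zsmul_eq_mul, div_pow, e2]
  field_simp

theorem HV_scale {A : Type*} [CommRing A] (F : ℤ[X]) (t a b : A) :
    HV F (t * a) (t * b) = t ^ F.natDegree * HV F a b := by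
  unfold HV
  rw [Finset.mul_sum]
  refine Finset.sum_congr rfl fun i hi => ?_
  have hi' := Finset.mem_range.1 hi
  have e : F.natDegree = (F.natDegree - i) + i := by omega
  have e2 : t ^ F.natDegree = t ^ (F.natDegree - i) * t ^ i := by
    rw [← pow_add, ← e]
  rw [mul_pow, mul_pow, e2]
  ring

theorem HV_zero_right {A : Type*} [CommRing A] (F : ℤ[X]) (hF : F.Monic) (a : A) :
    HV F a 0 = a ^ F.natDegree := by
  unfold HV
  rw [Finset.sum_eq_single F.natDegree]
  · rw [Nat.sub_self, pow_zero, mul_one]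
    have h : F.coeff F.natDegree = 1 := hF
    rw [h, Int.cast_one, one_mul]
  · intro i hi hne
    have hi' := Finset.mem_range.1 hi
    rw [zero_pow (by omega), mul_zero]
  · intro h
    exact absurd (Finset.mem_range.2 (by omega)) h

theorem HV_sq {A : Type*} [CommRing A] {l : ℕ} (hl : l.Prime) (F : ℤ[X]) (hF : F.Monic)
    (he : Even F.natDegree) (h : ∃ R : ℤ[X], C (l : ℤ) ∣ F - R ^ 2) (a b : A) :
    ∃ γ δ : A, HV F a b = γ ^ 2 + l * δ := by
  obtain ⟨R, hR⟩ := h
  obtain ⟨e, he⟩ := he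
  have : Fact l.Prime := ⟨hl⟩
  let ψ : ℤ →+* ZMod l := Int.castRingHom (ZMod l)
  have hker : ∀ G : ℤ[X], C (l : ℤ) ∣ G ↔ G.map ψ = 0 := by
    intro G
    rw [C_dvd_iff_dvd_coeff, Polynomial.ext_iff]
    apply forall_congr'
    intro i
    rw [coeff_map, coeff_zero, eq_intCast, ZMod.intCast_zmod_eq_zero_iff_dvd]
  have h1 : F.map ψ = (R.map ψ) ^ 2 := by
    rw [hker, Polynomial.map_sub, sub_eq_zero, Polynomial.map_pow] at hR
    exact hR
  have h2 : (R.map ψ).natDegree = e := by
    have h3 : (F.map ψ).natDegree = F.natDegree := hF.natDegree_map ψ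
    rw [h1, natDegree_pow, he] at h3
    omega
  let R1 : ℤ[X] := ∑ i ∈ Finset.range (e + 1), monomial i (R.coeff i)
  have hR1 : R1.map ψ = R.map ψ := by
    conv_rhs => rw [as_sum_range' (R.map ψ) (e + 1) (by omega)]
    show (∑ i ∈ Finset.range (e + 1), monomial i (R.coeff i)).map ψ = _
    rw [Polynomial.map_sum]
    refine Finset.sum_congr rfl fun i _ => ?_
    rw [map_monomial, coeff_map]
  have hR1d : R1.natDegree ≤ e := by
    refine natDegree_sum_le_of_forall_le _ _ fun i hi => ?_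
    have hi' := Finset.mem_range.1 hi
    exact (natDegree_monomial_le _).trans (by omega)
  have h4 : C (l : ℤ) ∣ F - R1 ^ 2 := by
    rw [hker, Polynomial.map_sub, sub_eq_zero, Polynomial.map_pow, hR1]
    exact h1
  obtain ⟨G, hG⟩ := h4
  have h5 : F = R1 * R1 + C (l : ℤ) * G := by
    rw [← hG]
    ring
  refine ⟨V e R1 a b, V (e + e) G a b, ?_⟩
  have h6 : HV F a b = V (e + e) F a b := by
    rw [← he]
    rfl
  rw [h6]
  conv_lhs => rw [h5]
  rw [V_add, V_mul hR1d hR1d, V_C_mul, Int.cast_natCast]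
  ring

end Pool.Agent.SS.J
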