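import Pool.Agent.Work.MP_a5099b_nt.J.Defs
import Pool.Agent.Work.MP_a5099b_nt.SpecB
import Pool.Agent.Work.MP_a5099b_nt.SpecT
import Pool.Agent.Work.CM.Jsu

/-!
# Module J/Cm (M): the values at `x` of the polynomials `T^i H_l` are not zero, up to one `l`

`hom_iff` is a general fact: it is a module of block H (JEq); here it is a hypothesis.
1. `x = jL L` for some lattice `L` (CM library, module Jsu; also a module of block H).
2. Claim: `aeval (jL L) ((TT q)^[i] (HH l)) = 0 → ∃ t : ℕ, 0 < t ∧ ∀ z ∈ L, t * sq l * z ∈ L`.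
   Induction on `i`, for all `L`. `i = 0`: `IsHH.spec` (`isHH hl`): a lattice `L'` with
   `HasSq l L'` and `jL L' = jL L`; `L = c • L'`, so `HasSq l L`, `t = 1`.
   `i + 1`: `(TT q)^[i+1] H = TT q ((TT q)^[i] H)` (`Function.iterate_succ_apply'`); by
   `TT_aeval_alg` over `ℂ` (a product over the roots of `PhiAt q (jL L)`) some root `y` has
   `aeval y ((TT q)^[i] H) = 0`; by `PhiAt_lat` (finite product) `y = jL L'` with `Sup q L L'`.
   `t √-l L' ⊂ L'`, and `q L' ⊂ L` (the index is `q`: `AddSubgroup.relIndex`, `q • z ∈ L` for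
   `z ∈ L'`), so `q t √-l L ⊂ q (t √-l L') ⊂ q L' ⊂ L`.
3. Two different primes `l`, `l1`: `α = t √-l`, `α1 = t1 √-l1`, `α L ⊂ L`, `α1 L ⊂ L`. Take
   `z ∈ L`, `z ≠ 0`: `z, α z, α1 z ∈ L` which has rank 2: integers `(a, b, c) ≠ 0` with
   `a + b α + c α1 = 0`. Real part: `a = 0`; `b t √l + c t1 √l1 = 0`, so `b² t² l = c² t1² l1`,
   impossible for different primes unless `b = c = 0` (parity of the exponent of `l`, or
   irrationality of `√(l l1)`: `Nat.Prime.irrational_sqrt`-like; `padicValNat`/`emultiplicity`).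
4. So at most one `l` has a zero value for some `i`: if there is such an `l1` take `B = l1`, else
   `B = 0`.
-/

set_option autoImplicit false

namespace Pool.Agent.SS.J

open NumberField IsDedekindDomain Polynomial
open Pool.Agent.Work.CM
open scoped Pointwise

private theorem root_lat {q : ℕ} (hq : q.Prime) {L : Submodule ℤ ℂ} (hL : IsLat L) {y : ℂ}
    (hy : (PhiAt q (jL L)).eval y = 0) : ∃ L', Sup q L L' ∧ jL L' = y := by
  by_contra hcon
  push Not at hcon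
  rw [PhiAt_lat hq hL] at hy
  revert hy
  refine finprod_mem_induction (p := fun P : ℂ[X] => P.eval y ≠ 0) ?_ ?_ ?_
  · simp
  · intro P Q hP hQ
    rw [eval_mul]
    exact mul_ne_zero hP hQ
  · intro L' hL'
    rw [eval_sub, eval_X, eval_C, sub_ne_zero]
    exact fun h => hcon L' hL' h.symm

private theorem sup_mul {q : ℕ} {L L' : Submodule ℤ ℂ} (h : Sup q L L') {z : ℂ} (hz : z ∈ L') :
    (q : ℂ) * z ∈ L := by
  have h1 := AddSubgroup.nsmul_relIndex_mem L.toAddSubgroup (K := L'.toAddSubgroup) (g := z) hz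
  rw [h.idx, nsmul_eq_mul] at h1
  exact h1

private theorem claim
    (hom : ∀ L L' : Submodule ℤ ℂ, IsLat L → IsLat L' → jL L = jL L' →
      ∃ c : ℂ, c ≠ 0 ∧ ∀ z, z ∈ L ↔ c * z ∈ L')
    {q : ℕ} (hq : q.Prime) {l : ℕ} (hl : LPrime l) (i : ℕ) :
    ∀ L : Submodule ℤ ℂ, IsLat L → aeval (jL L) ((TT q)^[i] (HH l)) = 0 →
      ∃ t : ℕ, 0 < t ∧ ∀ z ∈ L, (t : ℂ) * sq l * z ∈ L := by
  induction i with
  | zero =>
    intro L hL h
    obtain ⟨L', hL', hsq, hj⟩ := ((isHH hl).spec (jL L)).1 h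
    obtain ⟨c, hc, hcz⟩ := hom L L' hL hL' hj.symm
    refine ⟨1, one_pos, fun z hz => ?_⟩
    have h1 := hsq _ ((hcz z).1 hz)
    rw [hcz]
    have e : c * (((1 : ℕ) : ℂ) * sq l * z) = sq l * (c * z) := by push_cast; ring
    rw [e]
    exact h1
  | succ i ih =>
    intro L hL h
    rw [Function.iterate_succ_apply', TT_aeval_alg hq] at h
    rw [Multiset.prod_eq_zero_iff] at h
    obtain ⟨y, hy, hy0⟩ := Multiset.mem_map.1 h
    have hroot : (PhiAt q (jL L)).eval y = 0 := (mem_roots'.1 hy).2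
    obtain ⟨L', hL', rfl⟩ := root_lat hq hL hroot
    obtain ⟨t, ht, htz⟩ := ih L' hL'.lat' hy0
    refine ⟨q * t, Nat.mul_pos hq.pos ht, fun z hz => ?_⟩
    have h1 := sup_mul hL' (htz z (hL'.le hz))
    have e : ((q * t : ℕ) : ℂ) * sq l * z = (q : ℂ) * ((t : ℂ) * sq l * z) := by push_cast; ring
    rw [e]
    exact h1

private theorem not_sq {l l1 : ℕ} (hl : l.Prime) (hl1 : l1.Prime) (hne : l ≠ l1) {t m : ℕ}
    (ht : 0 < t) (h : m ^ 2 = t ^ 2 * (l * l1)) : False := by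
  have h1 : t ^ 2 ∣ m ^ 2 := ⟨_, h⟩
  have h2 : t ∣ m := (Nat.pow_dvd_pow_iff two_ne_zero).1 h1
  obtain ⟨k, rfl⟩ := h2
  have h3 : k ^ 2 = l * l1 := by
    have : t ^ 2 * k ^ 2 = t ^ 2 * (l * l1) := by rw [← h]; ring
    exact Nat.eq_of_mul_eq_mul_left (by positivity) this
  have h4 : l ∣ k := hl.dvd_of_dvd_pow (n := 2) ⟨l1, h3⟩
  obtain ⟨r, rfl⟩ := h4
  have h5 : l * r ^ 2 = l1 := by
    have : l * (l * r ^ 2) = l * l1 := by rw [← h3]; ring
    exact Nat.eq_of_mul_eq_mul_left hl.pos this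
  have h6 : l ∣ l1 := ⟨_, h5.symm⟩
  exact hne ((Nat.prime_dvd_prime_iff_eq hl hl1).1 h6)

private theorem two_sq {L : Submodule ℤ ℂ} (hL : IsLat L) {l l1 : ℕ} (hl : l.Prime)
    (hl1 : l1.Prime) (hne : l ≠ l1) {t t1 : ℕ} (ht : 0 < t) (ht1 : 0 < t1)
    (h : ∀ z ∈ L, (t : ℂ) * sq l * z ∈ L) (h1 : ∀ z ∈ L, (t1 : ℂ) * sq l1 * z ∈ L) : False := by
  obtain ⟨P, rfl⟩ := hL
  obtain ⟨r, hr⟩ : ∃ r : ℝ, r = t * t1 * (Real.sqrt l * Real.sqrt l1) := ⟨_, rfl⟩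
  have hmem : (t1 : ℂ) * sq l1 * ((t : ℂ) * sq l * P.ω₁) ∈ P.lattice :=
    h1 _ (h _ P.ω₁_mem_lattice)
  have e : (t1 : ℂ) * sq l1 * ((t : ℂ) * sq l * P.ω₁) = ((-r : ℝ) : ℂ) * P.ω₁ := by
    unfold sq
    rw [hr]
    push_cast
    linear_combination ((t1 : ℂ) * t * (Real.sqrt l * Real.sqrt l1) * P.ω₁) * Complex.I_mul_I
  rw [e, PeriodPair.mem_lattice] at hmem
  obtain ⟨m, n, hmn⟩ := hmem
  have hli := LinearIndependent.pair_iff.1 P.indep (m + r) n (by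
    rw [Complex.real_smul, Complex.real_smul]
    push_cast
    push_cast at hmn
    linear_combination hmn)
  have hm : (m : ℝ) = -r := by linarith [hli.1]
  have h2 : (m : ℝ) ^ 2 = (t * t1) ^ 2 * (l * l1) := by
    rw [hm, hr]
    have e1 : Real.sqrt l ^ 2 = l := Real.sq_sqrt (Nat.cast_nonneg _)
    have e2 : Real.sqrt l1 ^ 2 = l1 := Real.sq_sqrt (Nat.cast_nonneg _)
    calc (-(t * t1 * (Real.sqrt l * Real.sqrt l1))) ^ 2 =
        (t * t1) ^ 2 * (Real.sqrt l ^ 2 * Real.sqrt l1 ^ 2) := by ring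
      _ = _ := by rw [e1, e2]
  have h3 : m.natAbs ^ 2 = (t * t1) ^ 2 * (l * l1) := by
    have : (m : ℤ) ^ 2 = (((t * t1) ^ 2 * (l * l1) : ℕ) : ℤ) := by
      have h4 : ((m ^ 2 : ℤ) : ℝ) = (((t * t1) ^ 2 * (l * l1) : ℕ) : ℤ) := by
        push_cast
        exact h2
      exact_mod_cast h4
    zify
    rw [sq_abs]
    exact_mod_cast this
  exact not_sq hl hl1 hne (Nat.mul_pos ht ht1) h3

theorem nonvanish
    (hom : ∀ L L' : Submodule ℤ ℂ, IsLat L → IsLat L' → jL L = jL L' →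
      ∃ c : ℂ, c ≠ 0 ∧ ∀ z, z ∈ L ↔ c * z ∈ L')
    (sur : ∀ x : ℂ, ∃ L : Submodule ℤ ℂ, IsLat L ∧ jL L = x)
    {q : ℕ} (hq : q.Prime) (x : ℂ) :
    ∃ B : ℕ, ∀ l, LPrime l → B < l → ∀ i, aeval x ((TT q)^[i] (HH l)) ≠ 0 := by
  obtain ⟨L, hL, rfl⟩ := sur x
  by_cases hex : ∃ l1, LPrime l1 ∧ ∃ i, aeval (jL L) ((TT q)^[i] (HH l1)) = 0
  · obtain ⟨l1, hl1, i1, h1⟩ := hex
    refine ⟨l1, fun l hl hlt i h => ?_⟩
    obtain ⟨t, ht, htz⟩ := claim hom hq hl i L hL h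
    obtain ⟨t1, ht1, htz1⟩ := claim hom hq hl1 i1 L hL h1
    exact two_sq hL hl.prime hl1.prime hlt.ne' ht ht1 htz htz1
  · push Not at hex
    exact ⟨0, fun l hl _ i => hex l hl i⟩

end Pool.Agent.SS.J
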