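import Pool.Agent.Work.MP_a5099b_nt.J.Defs

/-!
# Module J/Ord (S-M): the valuation `ord v` on nonzero elements of the ring of integers

All from the factorization of ideals (`Associates.count_mul`, `Associates.prime_pow_dvd_iff_le`,
`Associates.le_of_count...`, `Ideal.IsPrime.mul_mem_pow`, `HeightOneSpectrum.associates_irreducible`):
* `mem_pow_iff`: `x ∈ v^n ↔ v^n ∣ (x) ↔ n ≤ ord v x` for `x ≠ 0`.
* `ord_mul`, `ord_pow`, `ord_eq`, `ord_zero_iff` follow.
* `absNorm_prod`: `Ideal.finprod_heightOneSpectrum_factorization` (`∏ᶠ v, v.maxPowDividing I = I`),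
  `maxPowDividing v I = v ^ count`; `absNorm` is a monoid hom; finite multiplicative support.
  For `jac_prod`: `jacobiSym (· : ℕ) l` is multiplicative (`jacobiSym.mul_left`) with value `1` at
  `1`, so it is a monoid hom `ℕ →* ℤ`, `MonoidHom.map_finprod` with the finite support of
  `v ↦ v.maxPowDividing I` (`Ideal.hasFiniteMulSupport` / `Ideal.finite_mulSupport`).
-/

set_option autoImplicit false

namespace Pool.Agent.SS.J

open NumberField IsDedekindDomain Polynomial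

variable {K : Type} [Field K] [NumberField K]

theorem mem_pow_iff (v : HeightOneSpectrum (𝓞 K)) {x : 𝓞 K} (hx : x ≠ 0) (n : ℕ) :
    x ∈ v.asIdeal ^ n ↔ n ≤ ord v x := by
  have hx0 : Ideal.span {x} ≠ 0 := by
    rw [Ne, Ideal.zero_eq_bot, Ideal.span_singleton_eq_bot]
    exact hx
  rw [← Associates.le_singleton_iff x n v.asIdeal,
    Associates.prime_pow_dvd_iff_le (Associates.mk_ne_zero.mpr hx0) v.associates_irreducible]
  rfl

theorem ord_mul (v : HeightOneSpectrum (𝓞 K)) {x y : 𝓞 K} (hx : x ≠ 0) (hy : y ≠ 0) :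
    ord v (x * y) = ord v x + ord v y := by
  have hx0 : Ideal.span {x} ≠ 0 := by
    rw [Ne, Ideal.zero_eq_bot, Ideal.span_singleton_eq_bot]
    exact hx
  have hy0 : Ideal.span {y} ≠ 0 := by
    rw [Ne, Ideal.zero_eq_bot, Ideal.span_singleton_eq_bot]
    exact hy
  unfold ord
  rw [← Ideal.span_singleton_mul_span_singleton, ← Associates.mk_mul_mk,
    Associates.count_mul (Associates.mk_ne_zero.mpr hx0) (Associates.mk_ne_zero.mpr hy0)
      v.associates_irreducible]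

theorem ord_pow (v : HeightOneSpectrum (𝓞 K)) {x : 𝓞 K} (hx : x ≠ 0) (n : ℕ) :
    ord v (x ^ n) = n * ord v x := by
  induction n with
  | zero =>
    have h1 : ord v (1 : 𝓞 K) = ord v (1 : 𝓞 K) + ord v (1 : 𝓞 K) := by
      have h := ord_mul v (one_ne_zero (α := 𝓞 K)) (one_ne_zero (α := 𝓞 K))
      rwa [mul_one] at h
    rw [pow_zero, zero_mul]
    omega
  | succ n ih =>
    rw [pow_succ, ord_mul v (pow_ne_zero n hx) hx, ih]
    ring

theorem ord_eq (v : HeightOneSpectrum (𝓞 K)) {x : 𝓞 K} (n : ℕ) (h1 : x ∈ v.asIdeal ^ n)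
    (h2 : x ∉ v.asIdeal ^ (n + 1)) : ord v x = n := by
  have hx : x ≠ 0 := by
    rintro rfl
    exact h2 (Ideal.zero_mem _)
  rw [mem_pow_iff v hx] at h1 h2
  omega

theorem ord_zero_iff (v : HeightOneSpectrum (𝓞 K)) {x : 𝓞 K} (hx : x ≠ 0) :
    ord v x = 0 ↔ x ∉ v.asIdeal := by
  have h := mem_pow_iff v hx 1
  rw [pow_one] at h
  rw [h]
  omega

theorem jac_prod (l : ℕ) {x : 𝓞 K} (hx : x ≠ 0) :
    jacobiSym (Ideal.absNorm (Ideal.span {x}) : ℤ) l =
      ∏ᶠ v : HeightOneSpectrum (𝓞 K), jacobiSym (Ideal.absNorm v.asIdeal : ℤ) l ^ ord v x := by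
  have hx0 : Ideal.span {x} ≠ 0 := by
    rw [Ne, Ideal.zero_eq_bot, Ideal.span_singleton_eq_bot]
    exact hx
  let g : Ideal (𝓞 K) →* ℤ :=
    { toFun := fun I => jacobiSym (Ideal.absNorm I : ℤ) l
      map_one' := by
        rw [map_one, Nat.cast_one, jacobiSym.one_left]
      map_mul' := fun I J => by
        rw [map_mul, Nat.cast_mul, jacobiSym.mul_left] }
  have h1 : g (∏ᶠ v : HeightOneSpectrum (𝓞 K), v.maxPowDividing (Ideal.span {x})) =
      ∏ᶠ v : HeightOneSpectrum (𝓞 K), g (v.maxPowDividing (Ideal.span {x})) :=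
    MonoidHom.map_finprod g (Ideal.hasFiniteMulSupport hx0)
  rw [Ideal.finprod_heightOneSpectrum_factorization hx0] at h1
  change g (Ideal.span {x}) = _
  rw [h1]
  refine finprod_congr fun v => ?_
  rw [HeightOneSpectrum.maxPowDividing, map_pow]
  rfl

/-- Every height one prime contains exactly one rational prime `p`, and its norm is a power of
`p`. -/
theorem exists_prime_mem (v : HeightOneSpectrum (𝓞 K)) :
    ∃ p : ℕ, p.Prime ∧ (p : 𝓞 K) ∈ v.asIdeal ∧
      (∀ p' : ℕ, p'.Prime → (p' : 𝓞 K) ∈ v.asIdeal → p' = p) ∧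
      ∃ f : ℕ, 0 < f ∧ Ideal.absNorm v.asIdeal = p ^ f ∧ Nat.card (𝓞 K ⧸ v.asIdeal) = p ^ f := by
  have hmax : v.asIdeal.IsMaximal := v.isMaximal
  let _ : Field (𝓞 K ⧸ v.asIdeal) := Ideal.Quotient.field v.asIdeal
  have : Finite (𝓞 K ⧸ v.asIdeal) := Ideal.finiteQuotientOfFreeOfNeBot v.asIdeal v.ne_bot
  let _ : Fintype (𝓞 K ⧸ v.asIdeal) := Fintype.ofFinite _
  obtain ⟨p, hc⟩ := CharP.exists (𝓞 K ⧸ v.asIdeal)
  obtain ⟨f, hp, hf⟩ := FiniteField.card (𝓞 K ⧸ v.asIdeal) p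
  have hmem : ∀ m : ℕ, (m : 𝓞 K) ∈ v.asIdeal ↔ p ∣ m := by
    intro m
    rw [← CharP.cast_eq_zero_iff (𝓞 K ⧸ v.asIdeal) p m, ← Ideal.Quotient.eq_zero_iff_mem,
      map_natCast]
  have hcard : Nat.card (𝓞 K ⧸ v.asIdeal) = p ^ (f : ℕ) := by
    rw [Nat.card_eq_fintype_card, hf]
  refine ⟨p, hp, (hmem p).mpr dvd_rfl, fun p' hp' h' => ?_, f, f.pos, ?_, hcard⟩
  · exact ((Nat.prime_dvd_prime_iff_eq hp hp').mp ((hmem p').mp h')).symm
  · rw [Ideal.absNorm_apply, Submodule.cardQuot_apply]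
    exact hcard

/-- If a prime number `l` divides the norm of `x`, some `v` above `l` contains `x`. -/
theorem exists_of_dvd_absNorm {l : ℕ} (hl : l.Prime) {x : 𝓞 K} (hx : x ≠ 0)
    (h : l ∣ Ideal.absNorm (Ideal.span {x})) :
    ∃ v : HeightOneSpectrum (𝓞 K), (l : 𝓞 K) ∈ v.asIdeal ∧ x ∈ v.asIdeal := by
  have hx0 : Ideal.span {x} ≠ ⊥ := by
    rw [Ne, Ideal.span_singleton_eq_bot]
    exact hx
  rw [← Ideal.prod_normalizedFactors_eq_self hx0, map_multiset_prod] at h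
  obtain ⟨a, ha, hla⟩ := hl.prime.exists_mem_multiset_dvd h
  rw [Multiset.mem_map] at ha
  obtain ⟨P, hP, rfl⟩ := ha
  have hpr : Prime P := UniqueFactorizationMonoid.prime_of_normalized_factor P hP
  have hdvd : P ∣ Ideal.span {x} := UniqueFactorizationMonoid.dvd_of_mem_normalizedFactors hP
  have hPp : P.IsPrime := Ideal.isPrime_of_prime hpr
  refine ⟨⟨P, hPp, hpr.ne_zero⟩, ?_, Ideal.dvd_span_singleton.mp hdvd⟩
  obtain ⟨p, hp, hpm, -, f, -, hN, -⟩ :=
    exists_prime_mem (K := K) ⟨P, hPp, hpr.ne_zero⟩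
  change Ideal.absNorm P = p ^ f at hN
  rw [hN] at hla
  have : l = p := (Nat.prime_dvd_prime_iff_eq hl hp).mp (hl.dvd_of_dvd_pow hla)
  rw [this]
  exact hpm

end Pool.Agent.SS.J
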