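import Pool.Agent.Work.MP_a5099b_nt.J.Defs
import Pool.Agent.Work.MP_a5099b_nt.J.Ord

/-!
# Module J/Bad (S-M): the product of the bad primes

The set `T` of the `v` with `W.Δ ∈ v` or `SSRed W v` is finite (`W.Δ ≠ 0` has finitely many prime
divisors: `Ideal.finite_factors`; the second set by hypothesis). Let `P` be the finite set of the
primes `p ≠ 2, q` such that `p = 3` or `p` lies in some `v ∈ T` (each `v` contains exactly one
prime, `exists_prime_mem`). `m = ∏ p ∈ P, p`: odd, squarefree (`Finset.squarefree_prod_of_pairwise...`),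
`q ∤ m`, `3 ∣ m`.
-/

set_option autoImplicit false

namespace Pool.Agent.SS.J

open NumberField IsDedekindDomain Polynomial

variable {K : Type} [Field K] [NumberField K]

theorem exists_bad {q : ℕ} (hq : q.Prime) (h7 : 7 ≤ q) (W : WeierstrassCurve (𝓞 K))
    (hW : W.Δ ≠ 0) (hfin : {v : HeightOneSpectrum (𝓞 K) | SSRed W v}.Finite) :
    ∃ m : ℕ, Odd m ∧ Squarefree m ∧ ¬ q ∣ m ∧ 3 ∣ m ∧
      ∀ (v : HeightOneSpectrum (𝓞 K)) (p : ℕ), p.Prime → (p : 𝓞 K) ∈ v.asIdeal →
        (W.Δ ∈ v.asIdeal ∨ SSRed W v) → p = 2 ∨ p = q ∨ p ∣ m := by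
  classical
  have hfac : {v : HeightOneSpectrum (𝓞 K) | v.asIdeal ∣ Ideal.span {W.Δ}}.Finite := by
    apply Ideal.finite_factors
    simpa [Ideal.span_singleton_eq_bot] using hW
  have hT : {v : HeightOneSpectrum (𝓞 K) | W.Δ ∈ v.asIdeal ∨ SSRed W v}.Finite := by
    refine (hfac.union hfin).subset ?_
    rintro v (h | h)
    · left
      show v.asIdeal ∣ Ideal.span {W.Δ}
      rw [Ideal.dvd_span_singleton]
      exact h
    · right
      exact h
  let pr : HeightOneSpectrum (𝓞 K) → ℕ := fun v => (exists_prime_mem v).choose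
  have hpr : ∀ v, (pr v).Prime ∧ ((pr v : ℕ) : 𝓞 K) ∈ v.asIdeal ∧
      ∀ p' : ℕ, p'.Prime → (p' : 𝓞 K) ∈ v.asIdeal → p' = pr v := fun v =>
    ⟨(exists_prime_mem v).choose_spec.1, (exists_prime_mem v).choose_spec.2.1,
      (exists_prime_mem v).choose_spec.2.2.1⟩
  let P : Finset ℕ := (insert 3 (hT.toFinset.image pr)).filter (fun p => p ≠ 2 ∧ p ≠ q)
  have hP : ∀ p ∈ P, p.Prime ∧ p ≠ 2 ∧ p ≠ q := by
    intro p hp
    rw [Finset.mem_filter, Finset.mem_insert, Finset.mem_image] at hp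
    obtain ⟨h, h2, hq'⟩ := hp
    refine ⟨?_, h2, hq'⟩
    rcases h with rfl | ⟨v, _, rfl⟩
    · exact Nat.prime_three
    · exact (hpr v).1
  refine ⟨∏ p ∈ P, p, ?_, ?_, ?_, ?_, ?_⟩
  · refine Finset.prod_induction _ Odd (fun a b => Odd.mul) odd_one ?_
    intro p hp
    exact (hP p hp).1.odd_of_ne_two (hP p hp).2.1
  · refine Finset.squarefree_prod_of_pairwise_isCoprime ?_ ?_
    · intro a ha b hb hab
      show IsRelPrime a b
      rw [← Nat.coprime_iff_isRelPrime]
      exact (Nat.coprime_primes (hP a ha).1 (hP b hb).1).mpr hab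
    · intro p hp
      exact (hP p hp).1.prime.squarefree
  · intro hdvd
    rw [hq.prime.dvd_finsetProd_iff] at hdvd
    obtain ⟨p, hp, hd⟩ := hdvd
    exact (hP p hp).2.2 ((Nat.prime_dvd_prime_iff_eq hq (hP p hp).1).mp hd).symm
  · refine Finset.dvd_prod_of_mem (fun p => p) (a := 3) ?_
    rw [Finset.mem_filter]
    exact ⟨Finset.mem_insert_self _ _, by omega, by omega⟩
  · intro v p hp hpv hbad
    by_cases h2 : p = 2
    · exact Or.inl h2
    by_cases hq' : p = q
    · exact Or.inr (Or.inl hq')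
    refine Or.inr (Or.inr (Finset.dvd_prod_of_mem (fun p => p) ?_))
    rw [Finset.mem_filter, Finset.mem_insert, Finset.mem_image]
    refine ⟨Or.inr ⟨v, ?_, ((hpr v).2.2 p hp hpv).symm⟩, h2, hq'⟩
    rw [Set.Finite.mem_toFinset]
    exact hbad

end Pool.Agent.SS.J
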