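import Pool.Agent.Work.MP_a5099b_nt.J.Defs

/-!
# Module J/Nrm (S-M): norms

* `norm_congr`: with a basis `b` of `𝓞 K` over `ℤ` (`RingOfIntegers.basis K`),
  `Algebra.norm ℤ x = det (Algebra.leftMulMatrix b x)`; `leftMulMatrix b (x + l y) =
  leftMulMatrix b x + l • leftMulMatrix b y`, so the images in `Matrix _ _ (ZMod l)` are equal;
  `RingHom.map_det`; `ZMod.intCast_eq_intCast_iff_dvd_sub`.
* `norm_pos`: `K` totally complex, `x ≠ 0`: `(Algebra.norm ℚ x : ℂ) = ∏ φ : K →+* ℂ, φ x`
  (`Algebra.norm_eq_prod_embeddings`); the complex embeddings come in pairs `φ, conj φ` without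
  fixed points (`IsTotallyComplex.complexEmbedding_not_isReal`), so the product is positive. Maybe
  quicker: `Algebra.norm` in terms of infinite places: `prod_eq_abs_norm` gives the absolute value;
  for the sign use `Finset.prod` over `InfinitePlace`s of the products over the fibres
  (`InfinitePlace.card_filter_mk_eq`, `mk_eq_iff`: the fibre of a complex place is `{φ, conj φ}`,
  product `= ‖φ x‖ ^ 2 > 0`), as in the proof of `prod_eq_abs_norm` in Mathlib.
* `norm_eq_absNorm`: `Ideal.absNorm_span_singleton` (natAbs of the norm) and `norm_pos`.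
-/

set_option autoImplicit false

namespace Pool.Agent.SS.J

open NumberField IsDedekindDomain Polynomial

variable {K : Type} [Field K] [NumberField K]

theorem norm_congr (l : ℕ) (x y : 𝓞 K) :
    (l : ℤ) ∣ Algebra.norm ℤ (x + l * y) - Algebra.norm ℤ x := by
  classical
  have b := RingOfIntegers.basis K
  rw [← (ZMod.intCast_eq_intCast_iff_dvd_sub _ _ l)]
  rw [Algebra.norm_eq_matrix_det (RingOfIntegers.basis K), Algebra.norm_eq_matrix_det (RingOfIntegers.basis K)]
  have h1 := RingHom.map_det (Int.castRingHom (ZMod l))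
    (Algebra.leftMulMatrix (RingOfIntegers.basis K) x)
  have h2 := RingHom.map_det (Int.castRingHom (ZMod l))
    (Algebra.leftMulMatrix (RingOfIntegers.basis K) (x + l * y))
  simp only [eq_intCast] at h1 h2
  rw [h1, h2]
  congr 1
  ext i j
  simp only [map_add, map_mul, map_natCast, RingHom.mapMatrix_apply, Matrix.map_apply,
    Matrix.add_apply]
  rw [← nsmul_eq_mul, Matrix.smul_apply, nsmul_eq_mul]
  simp

theorem norm_pos [IsTotallyComplex K] (x : 𝓞 K) (hx : x ≠ 0) : 0 < Algebra.norm ℤ x := by
  classical
  have h1 : ((Algebra.norm ℚ (x : K) : ℚ) : ℂ) = ∏ φ : K →+* ℂ, φ x := by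
    rw [← eq_ratCast (algebraMap ℚ ℂ), Algebra.norm_eq_prod_embeddings ℚ ℂ (x : K)]
    exact (Fintype.prod_equiv (RingHom.equivRatAlgHom K ℂ) (fun f => f (x : K))
      (fun φ => φ (x : K)) fun _ => by simp [RingHom.equivRatAlgHom_apply]).symm
  have h2 : ∏ φ : K →+* ℂ, φ x = ((∏ w : InfinitePlace K, (w x) ^ 2 : ℝ) : ℂ) := by
    rw [← Finset.prod_fiberwise Finset.univ InfinitePlace.mk (fun φ : K →+* ℂ => φ (x : K))]
    push_cast
    refine Finset.prod_congr rfl fun w _ => ?_
    have hf : (Finset.univ.filter fun φ : K →+* ℂ => InfinitePlace.mk φ = w)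
        = {w.embedding, ComplexEmbedding.conjugate w.embedding} := by
      ext φ
      simp only [Finset.mem_filter, Finset.mem_univ, true_and, Finset.mem_insert,
        Finset.mem_singleton]
      conv_lhs => rw [← InfinitePlace.mk_embedding w]
      rw [InfinitePlace.mk_eq_iff]
      constructor
      · rintro (h | h)
        · exact Or.inl h
        · right
          rw [← h]
          ext z
          simp
      · rintro (h | h)
        · exact Or.inl h
        · right
          rw [h]
          ext z
          simp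
    rw [hf, Finset.prod_pair]
    · rw [ComplexEmbedding.conjugate_coe_eq, Complex.mul_conj, Complex.normSq_eq_norm_sq,
        InfinitePlace.norm_embedding_eq]
      push_cast
      rfl
    · intro h
      exact IsTotallyComplex.complexEmbedding_not_isReal w.embedding
        (ComplexEmbedding.isReal_iff.mpr h.symm)
  have h3 : (Algebra.norm ℚ (x : K) : ℝ) = ∏ w : InfinitePlace K, (w x) ^ 2 := by
    have := h1.trans h2
    exact_mod_cast this
  have hx' : (x : K) ≠ 0 := by
    intro h
    exact hx (by exact_mod_cast h)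
  have h4 : (0 : ℝ) < (Algebra.norm ℚ (x : K) : ℝ) := by
    rw [h3]
    exact Finset.prod_pos fun w _ => pow_pos (InfinitePlace.pos_iff.mpr hx') 2
  rw [← Algebra.coe_norm_int] at h4
  exact_mod_cast h4

theorem norm_eq_absNorm [IsTotallyComplex K] (x : 𝓞 K) (hx : x ≠ 0) :
    (Ideal.absNorm (Ideal.span {x}) : ℤ) = Algebra.norm ℤ x := by
  rw [Ideal.absNorm_span_singleton]
  exact Int.natAbs_of_nonneg (norm_pos x hx).le

end Pool.Agent.SS.J
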