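import Pool.Agent.Work.MP_a5099b_nt.J.Defs
import Pool.Agent.Work.MP_a5099b_nt.J.HVal
import Pool.Agent.Work.MP_a5099b_nt.J.Nrm
import Pool.Agent.Work.MP_a5099b_nt.J.Ord

/-!
# Module J/Fin1: the two evaluations of the Jacobi symbol of the norm
-/

set_option autoImplicit false

namespace Pool.Agent.SS.J

open NumberField IsDedekindDomain Polynomial

variable {K : Type} [Field K] [NumberField K]

theorem jac_eq_one [IsTotallyComplex K] {l : ℕ} (hl : l.Prime) {F : ℤ[X]} (hF : Good l F)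
    (c d : 𝓞 K) (hne : HV F c d ≠ 0)
    (hu : ∀ v : HeightOneSpectrum (𝓞 K), (l : 𝓞 K) ∈ v.asIdeal → HV F c d ∉ v.asIdeal) :
    jacobiSym (Ideal.absNorm (Ideal.span {HV F c d}) : ℤ) l = 1 := by
  obtain ⟨γ, δ, hγ⟩ := HV_sq hl F hF.monic hF.even hF.sq c d
  have hN := norm_eq_absNorm _ hne
  have h1 := norm_congr l (γ ^ 2) δ
  rw [← hγ, map_pow] at h1
  have hl0 : (l : ℤ) ∣ (Ideal.absNorm (Ideal.span {HV F c d}) : ℤ) - (Algebra.norm ℤ γ) ^ 2 := by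
    rw [hN]
    exact h1
  have hnd : ¬ l ∣ Ideal.absNorm (Ideal.span {HV F c d}) := by
    intro hd
    obtain ⟨v, hv1, hv2⟩ := exists_of_dvd_absNorm hl hne hd
    exact hu v hv1 hv2
  have hmod : (Ideal.absNorm (Ideal.span {HV F c d}) : ℤ) % l =
      ((Algebra.norm ℤ γ) ^ 2) % l :=
    ((Int.modEq_iff_dvd.mpr hl0 : (Algebra.norm ℤ γ) ^ 2 ≡ _ [ZMOD l])).symm
  rw [jacobiSym.mod_left' hmod, pow_two, jacobiSym.mul_left, ← pow_two]
  apply jacobiSym.sq_one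
  have hnd2 : ¬ (l : ℤ) ∣ Algebra.norm ℤ γ := by
    intro hd
    apply hnd
    have h3 : (l : ℤ) ∣ (Ideal.absNorm (Ideal.span {HV F c d}) : ℤ) := by
      have h4 := dvd_add hl0 (dvd_pow hd two_ne_zero)
      simpa using h4
    exact_mod_cast h3
  have hlz : Prime (l : ℤ) := Nat.prime_iff_prime_int.mp hl
  rw [← Int.isCoprime_iff_gcd_eq_one]
  exact ((Prime.coprime_iff_not_dvd hlz).mpr hnd2).symm

theorem jac_eq_pow {l : ℕ} {x : 𝓞 K} (hx : x ≠ 0) (q : ℕ)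
    (S : Finset (HeightOneSpectrum (𝓞 K))) (g : HeightOneSpectrum (𝓞 K) → ℕ)
    (h1 : ∀ v : HeightOneSpectrum (𝓞 K), (q : 𝓞 K) ∉ v.asIdeal → x ∈ v.asIdeal →
      jacobiSym (Ideal.absNorm v.asIdeal : ℤ) l = 1)
    (h2 : ∀ v : HeightOneSpectrum (𝓞 K), (q : 𝓞 K) ∈ v.asIdeal → v ∉ S →
      jacobiSym (Ideal.absNorm v.asIdeal : ℤ) l ^ ord v x = 1)
    (h3 : ∀ v ∈ S, jacobiSym (Ideal.absNorm v.asIdeal : ℤ) l = -1 ∧ ord v x ≡ g v [MOD 2]) :
    jacobiSym (Ideal.absNorm (Ideal.span {x}) : ℤ) l = (-1) ^ (∑ v ∈ S, g v) := by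
  rw [jac_prod l hx, finprod_eq_prod_of_mulSupport_subset (s := S)]
  · rw [← Finset.prod_pow_eq_pow_sum]
    apply Finset.prod_congr rfl
    intro v hv
    obtain ⟨h4, h5⟩ := h3 v hv
    rw [h4]
    rw [neg_one_pow_congr]
    rw [Nat.even_iff, Nat.even_iff, h5]
  · intro v hv
    by_contra hvS
    apply hv
    by_cases hqv : (q : 𝓞 K) ∈ v.asIdeal
    · exact h2 v hqv (by simpa using hvS)
    · by_cases hxv : x ∈ v.asIdeal
      · show jacobiSym (Ideal.absNorm v.asIdeal : ℤ) l ^ ord v x = 1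
        rw [h1 v hqv hxv, one_pow]
      · show jacobiSym (Ideal.absNorm v.asIdeal : ℤ) l ^ ord v x = 1
        rw [(ord_zero_iff v hx).mpr hxv, pow_zero]

end Pool.Agent.SS.J
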