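import Pool.Agent.Work.MP_a5099b_nt.J.Defs
import Pool.Agent.Work.MP_a5099b_nt.J.Ord
import Pool.Agent.Work.MP_a5099b_nt.J.HVal

/-!
# Module J/Frac (S-M): fractions at a place

* `exists_frac`: `n = ord v d`. `v^n` divides `(d)` : `(d) = v^n J` (`Ideal.dvd_iff_le`,
  `mem_pow_iff`), and `J` is not contained in `v` (otherwise `v ∣ J`, `v^(n+1) ∣ (d)`). Take
  `β ∈ J`, `β ∉ v`. Then `β c ∈ J v^n = (d)` (if `c = 0` take `β = 1`, `α = 0`; otherwise
  `c ∈ v^n` by `mem_pow_iff`).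
* `ord_HV_nonint`: `j = c / d` not integral at `v`: `ord c < ord d` and `c ≠ 0` (`exists_frac`).
  `HV F c d = c^D + ∑_{i<D} a_i c^i d^(D-i)`; the terms with `i < D` are in `v^(D ord c + 1)`
  (exponent `≥ i ord c + (D - i) ord d ≥ D ord c + 1`), `c^D` is in `v^(D ord c)` and not in
  `v^(D ord c + 1)`. `ord_eq`.
* `ord_HV_int`: `β c = α d`, `β ∉ v`: `β^D HV F c d = HV F (β c) (β d) = HV F (α d) (β d) =
  d^D HV F α β` (HV_scale), then `ord_mul`, `ord_pow`, `ord β = 0`.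
-/

set_option autoImplicit false

namespace Pool.Agent.SS.J

open NumberField IsDedekindDomain Polynomial

variable {K : Type} [Field K] [NumberField K]

theorem exists_frac (v : HeightOneSpectrum (𝓞 K)) (c d : 𝓞 K) (hd : d ≠ 0)
    (h : c = 0 ∨ ord v d ≤ ord v c) :
    ∃ α β : 𝓞 K, β ∉ v.asIdeal ∧ β * c = α * d := by
  by_cases hc : c = 0
  · refine ⟨0, 1, ?_, by rw [hc]; ring⟩
    intro h1
    exact v.isPrime.ne_top ((Ideal.eq_top_iff_one _).2 h1)
  have h' : ord v d ≤ ord v c := by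
    rcases h with h | h
    · exact absurd h hc
    · exact h
  have h1 : d ∈ v.asIdeal ^ ord v d := (mem_pow_iff v hd _).2 le_rfl
  have h2 : d ∉ v.asIdeal ^ (ord v d + 1) := fun h3 => by
    have := (mem_pow_iff v hd _).1 h3
    omega
  have hdvd : v.asIdeal ^ ord v d ∣ Ideal.span {d} := by
    rw [Ideal.dvd_iff_le, Ideal.span_singleton_le_iff_mem]
    exact h1
  obtain ⟨J, hJ⟩ := hdvd
  have hJv : ¬ J ≤ v.asIdeal := by
    intro hle
    apply h2
    have : v.asIdeal ^ (ord v d + 1) ∣ Ideal.span {d} := by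
      rw [hJ, pow_succ]
      exact mul_dvd_mul_left _ (Ideal.dvd_iff_le.2 hle)
    rw [Ideal.dvd_iff_le, Ideal.span_singleton_le_iff_mem] at this
    exact this
  obtain ⟨β, hβJ, hβ⟩ := SetLike.not_le_iff_exists.1 hJv
  have hc' : c ∈ v.asIdeal ^ ord v d := (mem_pow_iff v hc _).2 h'
  have h3 : β * c ∈ Ideal.span {d} := by
    rw [hJ, mul_comm β c]
    exact Ideal.mul_mem_mul hc' hβJ
  obtain ⟨α, hα⟩ := Ideal.mem_span_singleton'.1 h3
  exact ⟨α, β, hβ, hα.symm⟩

theorem ord_HV_nonint (v : HeightOneSpectrum (𝓞 K)) (c d : 𝓞 K) (hd : d ≠ 0) (F : ℤ[X])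
    (hF : F.Monic) (h : ¬ ∃ α β : 𝓞 K, β ∉ v.asIdeal ∧ β * c = α * d) :
    ord v (HV F c d) = F.natDegree * ord v c := by
  have hc : c ≠ 0 := fun hc => h (exists_frac v c d hd (Or.inl hc))
  have hlt : ord v c < ord v d := by
    by_contra hcon
    exact h (exists_frac v c d hd (Or.inr (not_lt.1 hcon)))
  obtain ⟨D, hD⟩ : ∃ D, F.natDegree = D := ⟨_, rfl⟩
  have hcm : c ∈ v.asIdeal ^ ord v c := (mem_pow_iff v hc _).2 le_rfl
  have hdm : d ∈ v.asIdeal ^ (ord v c + 1) := (mem_pow_iff v hd _).2 hlt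
  have hsplit : HV F c d = (∑ i ∈ Finset.range D, (F.coeff i : 𝓞 K) * c ^ i * d ^ (D - i)) +
      c ^ D := by
    unfold HV
    rw [hD, Finset.sum_range_succ]
    congr 1
    rw [← hD, hF.coeff_natDegree]
    simp
  have hcD : c ^ D ∈ v.asIdeal ^ (D * ord v c) := by
    rw [mul_comm, pow_mul]
    exact Ideal.pow_mem_pow hcm D
  have hcD' : c ^ D ∉ v.asIdeal ^ (D * ord v c + 1) := by
    intro hcon
    have := (mem_pow_iff v (pow_ne_zero D hc) _).1 hcon
    rw [ord_pow v hc] at this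
    omega
  have hsum : (∑ i ∈ Finset.range D, (F.coeff i : 𝓞 K) * c ^ i * d ^ (D - i)) ∈
      v.asIdeal ^ (D * ord v c + 1) := by
    refine Ideal.sum_mem _ fun i hi => ?_
    have hi' : i < D := Finset.mem_range.1 hi
    have h1 : c ^ i ∈ v.asIdeal ^ (ord v c * i) := by
      rw [pow_mul]
      exact Ideal.pow_mem_pow hcm i
    have h2 : d ^ (D - i) ∈ v.asIdeal ^ ((ord v c + 1) * (D - i)) := by
      rw [pow_mul]
      exact Ideal.pow_mem_pow hdm (D - i)
    have h3 : c ^ i * d ^ (D - i) ∈ v.asIdeal ^ (ord v c * i + (ord v c + 1) * (D - i)) := by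
      rw [pow_add]
      exact Ideal.mul_mem_mul h1 h2
    have h4 : D * ord v c + 1 ≤ ord v c * i + (ord v c + 1) * (D - i) := by
      obtain ⟨k, rfl⟩ := Nat.exists_eq_add_of_lt hi'
      have : i + k + 1 - i = k + 1 := by omega
      rw [this]
      ring_nf
      omega
    have h5 := Ideal.pow_le_pow_right (I := v.asIdeal) h4 h3
    rw [mul_assoc]
    exact Ideal.mul_mem_left _ _ h5
  refine ord_eq v _ ?_ ?_
  · rw [hsplit, hD]
    exact Ideal.add_mem _ (Ideal.pow_le_pow_right (Nat.le_succ _) hsum) hcD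
  · rw [hsplit, hD]
    intro hcon
    exact hcD' ((Ideal.add_mem_iff_right _ hsum).1 hcon)

theorem ord_HV_int (v : HeightOneSpectrum (𝓞 K)) (c d α β : 𝓞 K) (hd : d ≠ 0) (F : ℤ[X])
    (hβ : β ∉ v.asIdeal) (h : β * c = α * d) (hne : HV F c d ≠ 0) :
    HV F α β ≠ 0 ∧ ord v (HV F c d) = F.natDegree * ord v d + ord v (HV F α β) := by
  have hβ0 : β ≠ 0 := by
    rintro rfl
    exact hβ (Ideal.zero_mem _)
  have h1 : β ^ F.natDegree * HV F c d = d ^ F.natDegree * HV F α β := by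
    rw [← HV_scale, ← HV_scale, h, mul_comm α d, mul_comm β d]
  have h2 : HV F α β ≠ 0 := by
    intro h0
    rw [h0, mul_zero] at h1
    exact mul_ne_zero (pow_ne_zero _ hβ0) hne h1
  refine ⟨h2, ?_⟩
  have h3 := congrArg (ord v) h1
  rw [ord_mul v (pow_ne_zero _ hβ0) hne, ord_mul v (pow_ne_zero _ hd) h2, ord_pow v hβ0,
    ord_pow v hd, (ord_zero_iff v hβ0).2 hβ] at h3
  omega

end Pool.Agent.SS.J
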