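import Pool.Agent.Work.MP_a5099b_nt.J.Defs
import Pool.Agent.Work.MP_a5099b_nt.J.HVal
import Pool.Agent.Work.MP_a5099b_nt.SpecC

/-!
# Module J/Ordn (S-M): ordinary places

Let `k = 𝓞 K ⧸ v`, a finite field of characteristic `p` (`Field` instance:
`Ideal.Quotient.field v.asIdeal`, `v.isMaximal`; `CharP` from `p ∈ v`).
* `not_mem_of_ordinary`: suppose `HV F (c₄^3) Δ ∈ v`. With bars for residues, `HV_map`:
  `HV F c̄₄^3 Δ̄ = 0`, `Δ̄ ≠ 0`, so `aeval (c̄₄^3/Δ̄) F = 0` (`HV_field`) and `Good.ss` gives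
  `SSj p (c̄₄^3/Δ̄)`; by `card_iff` for `W.map (mk v)` (`WeierstrassCurve.map_Δ`, `map_c₄`) the
  number of points is `1 mod p`: `SSRed W v`, contradiction.
* `pss_of_root`: `HV F ᾱ β̄ = 0` with `β̄ ≠ 0`: `aeval (ᾱ/β̄) F = 0`, `SSj q (ᾱ/β̄)`: there are
  `a b : k` with `4a^3+27b^2 ≠ 0`, `1728 * 4 a^3 = y (4a^3+27b^2)`, `Hasse q a b = 0`. Take
  `W' = ⟨0,0,0,a,b⟩`: `W'.Δ = -16 (4a^3+27b^2) ≠ 0`, `W'.c₄ = -48 a`, `W'.c₄^3 = y W'.Δ`: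
  `-110592 a^3 = - 16 * 6912 a^3 = -16 * 1728*4 a^3`. Number of points: `card_iff` (right to left)
  with `SSj q (W'.c₄^3/W'.Δ) = SSj q y`.
-/

set_option autoImplicit false

namespace Pool.Agent.SS.J

open NumberField IsDedekindDomain Polynomial

variable {K : Type} [Field K] [NumberField K]

omit [NumberField K] in
private theorem charP_quot (v : HeightOneSpectrum (𝓞 K)) {p : ℕ} (hp : p.Prime)
    (hpv : (p : 𝓞 K) ∈ v.asIdeal) : CharP (𝓞 K ⧸ v.asIdeal) p := by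
  have : Nontrivial (𝓞 K ⧸ v.asIdeal) := Ideal.Quotient.nontrivial_iff.mpr v.isPrime.ne_top
  have h0 : ((p : ℕ) : 𝓞 K ⧸ v.asIdeal) = 0 := by
    rw [← map_natCast (Ideal.Quotient.mk v.asIdeal)]
    exact Ideal.Quotient.eq_zero_iff_mem.mpr hpv
  exact (CharP.charP_iff_prime_eq_zero hp).mpr h0

/-- The values are units at the primes whose class of `α / β` is ordinary. -/
private theorem ssj_of_mem (v : HeightOneSpectrum (𝓞 K)) {p l : ℕ}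
    (hp : p.Prime) (h5 : 5 ≤ p) (hpv : (p : 𝓞 K) ∈ v.asIdeal)
    (h : p = l ∨ jacobiSym (-l) p = -1) {F : ℤ[X]} (hF : Good l F) {α β : 𝓞 K}
    (hβ : β ∉ v.asIdeal) (hm : HV F α β ∈ v.asIdeal) :
    letI : Field (𝓞 K ⧸ v.asIdeal) := Ideal.Quotient.field v.asIdeal
    SSj p (Ideal.Quotient.mk v.asIdeal α / Ideal.Quotient.mk v.asIdeal β) := by
  let _ : Field (𝓞 K ⧸ v.asIdeal) := Ideal.Quotient.field v.asIdeal
  have : CharP (𝓞 K ⧸ v.asIdeal) p := charP_quot v hp hpv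
  have hβ0 : Ideal.Quotient.mk v.asIdeal β ≠ 0 := fun h0 =>
    hβ (Ideal.Quotient.eq_zero_iff_mem.mp h0)
  have h1 : HV F (Ideal.Quotient.mk v.asIdeal α) (Ideal.Quotient.mk v.asIdeal β) = 0 := by
    rw [← HV_map]
    exact Ideal.Quotient.eq_zero_iff_mem.mpr hm
  rw [HV_field F _ _ hβ0] at h1
  have h2 := (mul_eq_zero.mp h1).resolve_left (pow_ne_zero _ hβ0)
  exact hF.ss p hp h5 h (𝓞 K ⧸ v.asIdeal) _ h2

theorem not_mem_of_ordinary (W : WeierstrassCurve (𝓞 K)) (v : HeightOneSpectrum (𝓞 K)) {p l : ℕ}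
    (hp : p.Prime) (h5 : 5 ≤ p) (hpv : (p : 𝓞 K) ∈ v.asIdeal) (hΔ : W.Δ ∉ v.asIdeal)
    (hord : ¬ SSRed W v) (h : p = l ∨ jacobiSym (-l) p = -1) {F : ℤ[X]} (hF : Good l F) :
    HV F (W.c₄ ^ 3) W.Δ ∉ v.asIdeal := by
  classical
  intro hm
  let _ : Field (𝓞 K ⧸ v.asIdeal) := Ideal.Quotient.field v.asIdeal
  have : CharP (𝓞 K ⧸ v.asIdeal) p := charP_quot v hp hpv
  have hfin : Finite (𝓞 K ⧸ v.asIdeal) := Ideal.finiteQuotientOfFreeOfNeBot v.asIdeal v.ne_bot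
  let _ : Fintype (𝓞 K ⧸ v.asIdeal) := Fintype.ofFinite _
  have h1 := ssj_of_mem v hp h5 hpv h hF hΔ hm
  have hΔ0 : (W.map (Ideal.Quotient.mk v.asIdeal)).Δ ≠ 0 := by
    rw [WeierstrassCurve.map_Δ]
    exact fun h0 => hΔ (Ideal.Quotient.eq_zero_iff_mem.mp h0)
  have h2 := card_iff hp h5 (W.map (Ideal.Quotient.mk v.asIdeal)) hΔ0
  rw [WeierstrassCurve.map_Δ, WeierstrassCurve.map_c₄, ← map_pow] at h2
  exact hord ⟨hΔ, p, hp, hpv, h2.mpr h1⟩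

theorem not_mem_of_not_pss (W : WeierstrassCurve (𝓞 K)) (v : HeightOneSpectrum (𝓞 K)) {q l : ℕ}
    (hq : q.Prime) (h5 : 5 ≤ q) (hqv : (q : 𝓞 K) ∈ v.asIdeal) (hord : ¬ PSS q W v)
    (h : jacobiSym (-l) q = -1) {F : ℤ[X]} (hF : Good l F) (α β : 𝓞 K) (hβ : β ∉ v.asIdeal)
    (hj : β * W.c₄ ^ 3 = α * W.Δ) : HV F α β ∉ v.asIdeal := by
  classical
  intro hm
  let _ : Field (𝓞 K ⧸ v.asIdeal) := Ideal.Quotient.field v.asIdeal
  have : CharP (𝓞 K ⧸ v.asIdeal) q := charP_quot v hq hqv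
  have hfin : Finite (𝓞 K ⧸ v.asIdeal) := Ideal.finiteQuotientOfFreeOfNeBot v.asIdeal v.ne_bot
  let _ : Fintype (𝓞 K ⧸ v.asIdeal) := Fintype.ofFinite _
  have h1 := ssj_of_mem v hq h5 hqv (Or.inr h) hF hβ hm
  have hβ0 : Ideal.Quotient.mk v.asIdeal β ≠ 0 := fun h0 =>
    hβ (Ideal.Quotient.eq_zero_iff_mem.mp h0)
  have h1' := h1
  obtain ⟨a, b, hab, hjj, hH⟩ := h1'
  have h2 : (2 : 𝓞 K ⧸ v.asIdeal) ≠ 0 := by
    intro h0
    have h3 : ((2 : ℕ) : 𝓞 K ⧸ v.asIdeal) = 0 := by exact_mod_cast h0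
    rw [CharP.cast_eq_zero_iff (𝓞 K ⧸ v.asIdeal) q 2] at h3
    have := Nat.le_of_dvd (by norm_num) h3
    omega
  have h16 : (16 : 𝓞 K ⧸ v.asIdeal) ≠ 0 := by
    have : (16 : 𝓞 K ⧸ v.asIdeal) = 2 ^ 4 := by norm_num
    rw [this]
    exact pow_ne_zero 4 h2
  let W' : WeierstrassCurve (𝓞 K ⧸ v.asIdeal) := ⟨0, 0, 0, a, b⟩
  have hΔ' : W'.Δ = -16 * (4 * a ^ 3 + 27 * b ^ 2) := by
    simp only [W', WeierstrassCurve.Δ, WeierstrassCurve.b₂, WeierstrassCurve.b₄,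
      WeierstrassCurve.b₆, WeierstrassCurve.b₈]
    ring
  have hc' : W'.c₄ = -48 * a := by
    simp only [W', WeierstrassCurve.c₄, WeierstrassCurve.b₂, WeierstrassCurve.b₄]
    ring
  have hΔ0 : W'.Δ ≠ 0 := by
    rw [hΔ']
    exact mul_ne_zero (neg_ne_zero.mpr h16) hab
  have hcΔ : W'.c₄ ^ 3 =
      (Ideal.Quotient.mk v.asIdeal α / Ideal.Quotient.mk v.asIdeal β) * W'.Δ := by
    rw [hΔ', hc']
    linear_combination (-16) * hjj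
  have hquot : W'.c₄ ^ 3 / W'.Δ =
      Ideal.Quotient.mk v.asIdeal α / Ideal.Quotient.mk v.asIdeal β := by
    rw [hcΔ, mul_div_assoc, div_self hΔ0, mul_one]
  have h4 := card_iff hq h5 W' hΔ0
  rw [hquot] at h4
  refine hord ⟨W', hΔ0, ⟨α, β, hβ, hj, ?_⟩, h4.mpr h1⟩
  rw [hcΔ]
  field_simp

end Pool.Agent.SS.J
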