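import Pool.Agent.Work.MP_a5099b_nt.J.Defs
import Pool.Agent.Work.MP_a5099b_nt.SpecB
import Pool.Agent.Work.MP_a5099b_nt.SpecF

/-!
# Module J/Par (S): the multiplicity of `n` in `H_l` mod `q`

`k = AlgebraicClosure (ZMod q)`, `y = (n : k)`. `HH_factor`: `PhiDiag l = -(HH l * S^2)`; mapped to
`k`: `rootMultiplicity y (PhiDiag) = rootMultiplicity y (HH) + 2 * rootMultiplicity y S`
(`rootMultiplicity_mul`, `rootMultiplicity_pow`, all nonzero as `HH l`, `S` are monic;
`rootMultiplicity_neg` or `C (-1)`). With `parity` this is `rootMultiplicity y (PhiAt l y)` mod 2.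
Finally root multiplicities do not change under the injection `ZMod q → k`
(`Polynomial.rootMultiplicity_map`/`eq_rootMultiplicity_map` of an injective ring hom), `PhiAt_map`,
`Polynomial.map_map`.
-/

set_option autoImplicit false

namespace Pool.Agent.SS.J

open NumberField IsDedekindDomain Polynomial

private theorem par_neg {k : Type*} [Field k] (p : k[X]) (x : k) :
    (-p).rootMultiplicity x = p.rootMultiplicity x := by
  by_cases hp : p = 0
  · rw [hp, neg_zero]
  have h1 : -p = C (-1) * p := by simp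
  rw [h1, rootMultiplicity_mul (by rw [← h1]; exact neg_ne_zero.2 hp), rootMultiplicity_C, zero_add]

private theorem par_sq {k : Type*} [Field k] {p : k[X]} (hp : p ≠ 0) (x : k) :
    (p ^ 2).rootMultiplicity x = 2 * p.rootMultiplicity x := by
  rw [pow_two, rootMultiplicity_mul (mul_ne_zero hp hp), two_mul]

theorem mult_HH {q l : ℕ} [Fact q.Prime] (h5 : 5 ≤ q) (hl : LPrime l) (hlq : l ≠ q) (n : ZMod q)
    (h0 : n ≠ 0) (h1 : n ≠ 1728) :
    ((HH l).map (Int.castRingHom (ZMod q))).rootMultiplicity n ≡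
      (PhiAt l n).rootMultiplicity n [MOD 2] := by
  obtain ⟨S, hS, hfac⟩ := HH_factor hl
  have hHH := (isHH hl).monic
  have hf : Function.Injective (algebraMap (ZMod q) (AlgebraicClosure (ZMod q))) :=
    (algebraMap (ZMod q) (AlgebraicClosure (ZMod q))).injective
  have hch : CharP (AlgebraicClosure (ZMod q)) q := charP_of_injective_algebraMap hf q
  have hl5 : 5 ≤ l := by have := hl.mod8; omega
  have hy0 : algebraMap (ZMod q) (AlgebraicClosure (ZMod q)) n ≠ 0 := (_root_.map_ne_zero _).2 h0
  have hy1 : algebraMap (ZMod q) (AlgebraicClosure (ZMod q)) n ≠ 1728 := by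
    intro h
    apply h1
    apply hf
    rw [h, map_ofNat]
  have hp := parity (Fact.out : q.Prime) h5 hl.prime hl5 hlq
    (algebraMap (ZMod q) (AlgebraicClosure (ZMod q)) n) hy0 hy1
  have hm1 : ((HH l).map (Int.castRingHom (AlgebraicClosure (ZMod q)))) ≠ 0 :=
    (hHH.map _).ne_zero
  have hm2 : (S.map (Int.castRingHom (AlgebraicClosure (ZMod q)))) ≠ 0 := (hS.map _).ne_zero
  rw [hfac, Polynomial.map_neg, par_neg, Polynomial.map_mul, Polynomial.map_pow,
    rootMultiplicity_mul (mul_ne_zero hm1 (pow_ne_zero 2 hm2)), par_sq hm2] at hp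
  have hmap : (HH l).map (Int.castRingHom (AlgebraicClosure (ZMod q))) =
      ((HH l).map (Int.castRingHom (ZMod q))).map
        (algebraMap (ZMod q) (AlgebraicClosure (ZMod q))) := by
    rw [Polynomial.map_map]
    congr 1
  rw [hmap, ← eq_rootMultiplicity_map hf, ← PhiAt_map, ← eq_rootMultiplicity_map hf] at hp
  have h2 : ∀ a b c : ℕ, a + 2 * b ≡ c [MOD 2] → a ≡ c [MOD 2] := by
    intro a b c h
    unfold Nat.ModEq at h ⊢
    omega
  exact h2 _ _ _ hp

end Pool.Agent.SS.J
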