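import Pool.Agent.Work.MP_a5099b_nt.J.Defs
import Pool.Agent.Work.MP_a5099b_nt.J.Ord

/-!
# Module J/Emb (M): the embedding of `K` in `PadicAlgCl q` at an unramified place `v` above `q`

Let `Ω = PadicAlgCl q`. `K / ℚ` is finite separable and `Ω` is algebraically closed of
characteristic 0, so `Algebra.norm ℚ x = ∏ σ : K →ₐ[ℚ] Ω, σ x` (`Algebra.norm_eq_prod_embeddings`).
For every `σ` and `x : 𝓞 K`: `‖σ x‖ ≤ 1` (integral over `ℤ`, norms of integers are `≤ 1`,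
ultrametric: if `‖y‖ > 1` and `y^n = - ∑ a_i y^i` then `‖y‖^n ≤ ‖y‖^(n-1)`; maybe
`isIntegral → norm_le_one` exists for `PadicAlgCl`). `P_σ = {x : 𝓞 K | ‖σ x‖ < 1}` is a prime
ideal containing `q` (`‖q‖ = 1/q < 1`), so it is a maximal ideal (nonzero prime).
Claim: `v.asIdeal = P_σ` for some `σ`. Otherwise (prime avoidance, `Ideal.subset_union_prime`, or
CRT) there is `x ∈ v` outside all the `P_σ` (finitely many `σ`): `‖σ x‖ = 1` for all `σ`, so
`‖(Algebra.norm ℚ x : Ω)‖ = 1`; but `x ∈ v`, so the integer `N(x) = Algebra.norm ℤ x` lies in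
`v` (`Algebra.norm_mem`/ `x ∣ N(x)`: e.g. `Ideal.absNorm_mem` and `absNorm (v) ∣ absNorm (x)`), so
`q ∣ N(x)` (`v ∩ ℤ = qℤ`) and its norm is `< 1`. Contradiction.
Now `σ` with `P_σ = v`. Let `x ∈ 𝓞 K`, `x ≠ 0`, `n = ord v x`; `ord v q = 1` (`q ∈ v`, `q ∉ v^2`).
`exists_frac` (or the same argument) : `x / q^n` has order 0 in both directions: there are
`α, β ∉ v` with `β x = α q^n` [ideals: `(q^n) = v^n J`, `J` not in `v`, `β ∈ J \ v`, then
`β x ∈ v^n J = (q^n)`, and `ord α = ord β + ord x - n = 0`]. So `‖σ β‖ = ‖σ α‖ = 1`,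
`‖σ x‖ = ‖q‖^n`.
-/

set_option autoImplicit false

namespace Pool.Agent.SS.J

open NumberField IsDedekindDomain Polynomial

variable {K : Type} [Field K] [NumberField K]

omit [NumberField K] in
private theorem emb_norm_le {q : ℕ} [Fact q.Prime] (σ : K →+* PadicAlgCl q) (x : 𝓞 K) :
    ‖σ (x : K)‖ ≤ 1 := by
  have h1 : IsIntegral ℤ (σ (x : K)) := by
    have h2 : IsIntegral ℤ (x : K) := x.2
    exact h2.map (σ : K →+* PadicAlgCl q).toIntAlgHom
  have hv : (NormedField.valuation (K := PadicAlgCl q)).Integers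
      (NormedField.valuation (K := PadicAlgCl q)).integer := Valuation.integer.integers _
  have h3 : IsIntegral (NormedField.valuation (K := PadicAlgCl q)).integer (σ (x : K)) := h1.tower_top
  have h4 := (Valuation.mem_integer_iff _ _).1 (hv.mem_of_integral h3)
  exact h4

private theorem emb_norm_q {q : ℕ} [Fact q.Prime] : ‖(q : PadicAlgCl q)‖ < 1 ∧ 0 < ‖(q : PadicAlgCl q)‖ := by
  have h := PadicAlgCl.norm_extends q (q : ℚ_[q])
  have h1 : ((q : ℚ_[q]) : PadicAlgCl q) = (q : PadicAlgCl q) := by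
    exact map_natCast (algebraMap ℚ_[q] (PadicAlgCl q)) q
  rw [h1] at h
  rw [h]
  refine ⟨Padic.norm_p_lt_one, ?_⟩
  rw [norm_pos_iff]
  exact_mod_cast (Fact.out : q.Prime).ne_zero

/-- the prime ideal of an embedding -/
private def embP {q : ℕ} [Fact q.Prime] (σ : K →+* PadicAlgCl q) : Ideal (𝓞 K) where
  carrier := {x | ‖σ (x : K)‖ < 1}
  add_mem' := by
    intro a b ha hb
    simp only [Set.mem_ofPred_eq] at ha hb ⊢
    push_cast
    rw [map_add]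
    exact lt_of_le_of_lt (IsUltrametricDist.norm_add_le_max _ _) (max_lt ha hb)
  zero_mem' := by simp
  smul_mem' := by
    intro c x hx
    simp only [Set.mem_ofPred_eq, smul_eq_mul] at hx ⊢
    push_cast
    rw [map_mul, norm_mul]
    calc _ ≤ 1 * ‖σ (x : K)‖ := mul_le_mul_of_nonneg_right (emb_norm_le σ c) (norm_nonneg _)
      _ < 1 := by rwa [one_mul]

private theorem mem_embP {q : ℕ} [Fact q.Prime] (σ : K →+* PadicAlgCl q) (x : 𝓞 K) :
    x ∈ embP σ ↔ ‖σ (x : K)‖ < 1 := Iff.rfl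

private theorem embP_prime {q : ℕ} [Fact q.Prime] (σ : K →+* PadicAlgCl q) : (embP σ).IsPrime := by
  refine ⟨?_, ?_⟩
  · intro h
    have h1 : (1 : 𝓞 K) ∈ embP σ := by rw [h]; trivial
    rw [mem_embP] at h1
    simp at h1
  · intro x y h
    rw [mem_embP] at h
    by_contra hcon
    push Not at hcon
    obtain ⟨h1, h2⟩ := hcon
    rw [mem_embP, not_lt] at h1 h2
    push_cast at h
    rw [map_mul, norm_mul] at h
    have h3 := mul_le_mul h1 h2 zero_le_one (norm_nonneg _)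
    rw [one_mul] at h3
    exact absurd h (not_lt.2 h3)

private theorem norm_eq_one {q : ℕ} [Fact q.Prime] (σ : K →+* PadicAlgCl q) {x : 𝓞 K} (h : x ∉ embP σ) :
    ‖σ (x : K)‖ = 1 := by
  rw [mem_embP, not_lt] at h
  exact le_antisymm (emb_norm_le σ x) h

private theorem exists_embP {q : ℕ} [Fact q.Prime] (v : HeightOneSpectrum (𝓞 K))
    (hq : (q : 𝓞 K) ∈ v.asIdeal) : ∃ σ : K →ₐ[ℚ] PadicAlgCl q, embP (σ : K →+* PadicAlgCl q) = v.asIdeal := by
  classical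
  by_contra hcon
  push Not at hcon
  have hne : ∀ σ : K →ₐ[ℚ] PadicAlgCl q, ¬ v.asIdeal ≤ embP (σ : K →+* PadicAlgCl q) := by
    intro σ h
    have hm : v.asIdeal.IsMaximal := v.isMaximal
    exact hcon σ (hm.eq_of_le (embP_prime _).ne_top h).symm
  have h1 : ¬ ((v.asIdeal : Set (𝓞 K)) ⊆ ⋃ σ ∈ (↑(Finset.univ : Finset (K →ₐ[ℚ] PadicAlgCl q)) :
      Set (K →ₐ[ℚ] PadicAlgCl q)), embP (σ : K →+* PadicAlgCl q)) := by
    rcases isEmpty_or_nonempty (K →ₐ[ℚ] PadicAlgCl q) with he | ⟨⟨τ⟩⟩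
    · intro h
      have h2 := h v.asIdeal.zero_mem
      simp at h2
    · rw [Ideal.subset_union_prime τ τ (fun σ _ _ _ => embP_prime (σ : K →+* PadicAlgCl q))]
      rintro ⟨σ, -, h⟩
      exact hne σ h
  rw [Set.not_subset] at h1
  obtain ⟨x, hx, hx'⟩ := h1
  have h2 : ∀ σ : K →ₐ[ℚ] PadicAlgCl q, ‖σ (x : K)‖ = 1 := by
    intro σ
    refine norm_eq_one (σ : K →+* PadicAlgCl q) fun h => hx' ?_
    simp only [Set.mem_iUnion]
    exact ⟨σ, Finset.mem_coe.2 (Finset.mem_univ σ), h⟩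
  have h3 : ‖algebraMap ℚ (PadicAlgCl q) (Algebra.norm ℚ (x : K))‖ = 1 := by
    rw [Algebra.norm_eq_prod_embeddings, norm_prod]
    exact Finset.prod_eq_one fun σ _ => h2 σ
  rw [← Algebra.coe_norm_int] at h3
  have h4 : ((Algebra.norm ℤ x).natAbs : 𝓞 K) ∈ v.asIdeal := by
    rw [← Ideal.absNorm_span_singleton]
    exact (Ideal.span_singleton_le_iff_mem _).2 hx (Ideal.absNorm_mem _)
  have h5 : q ∣ (Algebra.norm ℤ x).natAbs := by
    by_contra hnd
    have hc : IsCoprime (q : ℤ) ((Algebra.norm ℤ x).natAbs : ℤ) :=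
      Nat.isCoprime_iff_coprime.2 (((Fact.out : q.Prime).coprime_iff_not_dvd).2 hnd)
    obtain ⟨a, b, hab⟩ := hc
    have h6 : (1 : 𝓞 K) ∈ v.asIdeal := by
      have h7 : ((a : 𝓞 K)) * (q : 𝓞 K) + (b : 𝓞 K) * ((Algebra.norm ℤ x).natAbs : 𝓞 K) = 1 := by
        have h8 := congrArg (fun z : ℤ => (z : 𝓞 K)) hab
        simp only [Int.cast_add, Int.cast_mul, Int.cast_natCast, Int.cast_one] at h8
        exact h8
      rw [← h7]
      exact Ideal.add_mem _ (Ideal.mul_mem_left _ _ hq) (Ideal.mul_mem_left _ _ h4)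
    exact v.isPrime.ne_top ((Ideal.eq_top_iff_one _).2 h6)
  obtain ⟨m, hm⟩ : (q : ℤ) ∣ Algebra.norm ℤ x := Int.natCast_dvd.2 h5
  rw [hm] at h3
  have h8 : algebraMap ℚ (PadicAlgCl q) (((q : ℤ) * m : ℤ) : ℚ) = (q : PadicAlgCl q) * (m : PadicAlgCl q) := by
    simp
  rw [h8, norm_mul] at h3
  have h9 : ‖(m : PadicAlgCl q)‖ ≤ 1 := IsUltrametricDist.norm_intCast_le_one _ m
  have h10 := (emb_norm_q (q := q)).1
  have h11 : ‖(q : PadicAlgCl q)‖ * ‖(m : PadicAlgCl q)‖ ≤ ‖(q : PadicAlgCl q)‖ * 1 :=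
    mul_le_mul_of_nonneg_left h9 (norm_nonneg _)
  linarith

theorem exists_emb {q : ℕ} [Fact q.Prime] (v : HeightOneSpectrum (𝓞 K))
    (hq : (q : 𝓞 K) ∈ v.asIdeal) (hur : (q : 𝓞 K) ∉ v.asIdeal ^ 2) :
    ∃ σ : K →+* PadicAlgCl q, ∀ x : 𝓞 K, x ≠ 0 →
      ‖σ (x : K)‖ = ‖(q : PadicAlgCl q)‖ ^ ord v x := by
  obtain ⟨σ, hσ⟩ := exists_embP v hq
  refine ⟨(σ : K →+* PadicAlgCl q), fun x hx => ?_⟩
  have hq0 : (q : 𝓞 K) ≠ 0 := Nat.cast_ne_zero.2 (Fact.out : q.Prime).ne_zero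
  have hq1 : ord v (q : 𝓞 K) = 1 := ord_eq v 1 (by rwa [pow_one]) (by rwa [one_add_one_eq_two])
  set n := ord v x with hn
  have hqn : ord v ((q : 𝓞 K) ^ n) = n := by rw [ord_pow v hq0, hq1, mul_one]
  have hqn0 : (q : 𝓞 K) ^ n ≠ 0 := pow_ne_zero _ hq0
  have hd : v.asIdeal ^ n ∣ Ideal.span {(q : 𝓞 K) ^ n} := by
    rw [Ideal.dvd_iff_le, Ideal.span_singleton_le_iff_mem]
    exact Ideal.pow_mem_pow hq n
  obtain ⟨J, hJ⟩ := hd
  have hJv : ¬ J ≤ v.asIdeal := by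
    intro h
    have h1 : (q : 𝓞 K) ^ n ∈ v.asIdeal ^ (n + 1) := by
      have h2 : Ideal.span {(q : 𝓞 K) ^ n} ≤ v.asIdeal ^ (n + 1) := by
        rw [hJ, pow_succ]
        exact Ideal.mul_mono_right h
      exact h2 (Ideal.mem_span_singleton_self _)
    rw [mem_pow_iff v hqn0, hqn] at h1
    omega
  obtain ⟨β, hβJ, hβ⟩ := Set.not_subset.1 (show ¬ ((J : Set (𝓞 K)) ⊆ v.asIdeal) from hJv)
  have hxn : x ∈ v.asIdeal ^ n := (mem_pow_iff v hx n).2 le_rfl
  have h1 : x * β ∈ Ideal.span {(q : 𝓞 K) ^ n} := by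
    rw [hJ]
    exact Ideal.mul_mem_mul hxn hβJ
  obtain ⟨α, hα⟩ := Ideal.mem_span_singleton'.1 h1
  have hβ0 : β ≠ 0 := by
    rintro rfl
    exact hβ v.asIdeal.zero_mem
  have hα0 : α ≠ 0 := by
    rintro rfl
    rw [zero_mul] at hα
    exact (mul_ne_zero hx hβ0) hα.symm
  have hαv : α ∉ v.asIdeal := by
    rw [← ord_zero_iff v hα0]
    have h2 := congrArg (ord v) hα
    rw [ord_mul v hα0 hqn0, ord_mul v hx hβ0, (ord_zero_iff v hβ0).2 hβ, hqn] at h2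
    omega
  have e1 : ‖(σ : K →+* PadicAlgCl q) (α : K)‖ = 1 := norm_eq_one _ (by rwa [hσ])
  have e2 : ‖(σ : K →+* PadicAlgCl q) (β : K)‖ = 1 := norm_eq_one _ (by rwa [hσ])
  have e3 : (α : K) * ((q : K)) ^ n = (x : K) * (β : K) := by
    have := congrArg (fun z : 𝓞 K => (z : K)) hα
    push_cast at this
    exact this
  have e4 := congrArg (fun z => ‖(σ : K →+* PadicAlgCl q) z‖) e3
  simp only [map_mul, map_pow, map_natCast, norm_mul, norm_pow, e1, e2, one_mul, mul_one] at e4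
  exact e4.symm

end Pool.Agent.SS.J
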