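import Pool.Agent.Work.MP_a5099b_nt.J.Defs
import Pool.Agent.Work.MP_a5099b_nt.J.HVal
import Pool.Agent.Work.MP_a5099b_nt.J.Ord
import Pool.Agent.Work.MP_a5099b_nt.J.Emb
import Pool.Agent.Work.MP_a5099b_nt.J.Frac

/-!
# Module J/Pt (S-M): the local point

`σ` from `exists_emb`, `c = W.c₄^3`, `d = W.Δ ≠ 0`, `x = σ (c / d)`. `JMod W v n` gives `α β` with
`β ∉ v`, `β c = α d`, `α - n β ∈ v`; in `K`: `c / d = α / β` (`β ≠ 0`), `ord v β = 0`, so
`‖σ β‖ = 1`.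
* `x - n = σ (α - n β) / σ β`: if `α - n β = 0` trivial, otherwise `ord v ≥ 1` (`mem_pow_iff`) and
  `‖q‖ ≤ 1`.
* `aeval x F = σ (aeval (α/β) F) = σ (HV F α β) / σ β ^ D` (`HV_field`, `HV_map`): so it is `0` if
  `HV F α β = 0` and otherwise its norm is `‖q‖ ^ ord v (HV F α β)`.
* third claim: `aeval x F = σ (aeval (c/d) F)` and `σ` injective.
* last claim: `HV F c d ≠ 0` as `aeval x F ≠ 0` (its norm is positive, `‖q‖ > 0`); `ord_HV_int`:
  `ord v (HV F c d) = D ord v d + ord v (HV F α β)`, and `‖q‖^m = ‖q‖^(ord v (HV F α β))` gives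
  `m = ord` (`0 < ‖q‖ < 1`).
-/

set_option autoImplicit false

namespace Pool.Agent.SS.J

open NumberField IsDedekindDomain Polynomial

variable {K : Type} [Field K] [NumberField K]

private theorem aeval_int {R : Type*} [CommRing R] [Algebra ℤ R] (F : ℤ[X]) (z : R) :
    aeval z F = F.eval₂ (Int.castRingHom R) z := by
  rw [aeval_def]
  congr 1
  exact RingHom.ext_int _ _

theorem exists_point {q : ℕ} [Fact q.Prime] (W : WeierstrassCurve (𝓞 K)) (hW : W.Δ ≠ 0)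
    (v : HeightOneSpectrum (𝓞 K)) (hq : (q : 𝓞 K) ∈ v.asIdeal)
    (hur : (q : 𝓞 K) ∉ v.asIdeal ^ 2) (n : ℤ) (hn : JMod W v n) :
    ∃ x : PadicAlgCl q, ‖x - (n : PadicAlgCl q)‖ ≤ ‖(q : PadicAlgCl q)‖ ∧
      (∀ F : ℤ[X], aeval x F = 0 ∨ ∃ m : ℕ, ‖aeval x F‖ = ‖(q : PadicAlgCl q)‖ ^ m) ∧
      (∀ F : ℤ[X], aeval ((W.c₄ ^ 3 : 𝓞 K) / (W.Δ : 𝓞 K) : K) F ≠ 0 → aeval x F ≠ 0) ∧
      (∀ (F : ℤ[X]) (m : ℕ), ‖aeval x F‖ = ‖(q : PadicAlgCl q)‖ ^ m →
        ord v (HV F (W.c₄ ^ 3) W.Δ) = F.natDegree * ord v W.Δ + m) := by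
  obtain ⟨σ, hσ⟩ := exists_emb v hq hur
  obtain ⟨α, β, hβ, hαβ, hnβ⟩ := hn
  have hβ0 : β ≠ 0 := by
    rintro rfl
    exact hβ (Ideal.zero_mem _)
  have hβK : (β : K) ≠ 0 := by
    rw [Ne, RingOfIntegers.coe_eq_zero_iff]
    exact hβ0
  have hΔK : (W.Δ : K) ≠ 0 := by
    rw [Ne, RingOfIntegers.coe_eq_zero_iff]
    exact hW
  have hcd : ((W.c₄ ^ 3 : 𝓞 K) / (W.Δ : 𝓞 K) : K) = (α : K) / (β : K) := by
    rw [div_eq_div_iff hΔK hβK]
    have := congrArg (fun z : 𝓞 K => (z : K)) hαβ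
    simp only [map_mul] at this
    rw [← this]
    ring
  have hq0 : 0 < ‖(q : PadicAlgCl q)‖ := by
    rw [norm_pos_iff]
    exact_mod_cast (Fact.out : q.Prime).ne_zero
  have hσβ : ‖σ (β : K)‖ = 1 := by
    rw [hσ β hβ0, (ord_zero_iff v hβ0).mpr hβ, pow_zero]
  have hσβ0 : σ (β : K) ≠ 0 := by
    rw [Ne, map_eq_zero]
    exact hβK
  have hq1 : ‖(q : PadicAlgCl q)‖ < 1 := by
    have h1 := PadicAlgCl.norm_extends q (q : ℚ_[q])
    rw [map_natCast] at h1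
    rw [h1]
    exact Padic.norm_p_lt_one
  have haev : ∀ (F : ℤ[X]) (z : K), aeval (σ z) F = σ (aeval z F) := by
    intro F z
    rw [aeval_int, aeval_int, hom_eval₂]
    congr 1
    exact RingHom.ext_int _ _
  have hHV : ∀ F : ℤ[X], σ (β : K) ^ F.natDegree * aeval (σ ((α : K) / (β : K))) F =
      σ ((HV F α β : 𝓞 K) : K) := by
    intro F
    have h1 := HV_map (σ.comp (algebraMap (𝓞 K) K)) F α β
    have h2 := HV_field F (σ (α : K)) (σ (β : K)) hσβ0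
    rw [aeval_int] at h2
    rw [map_div₀, aeval_int, ← h2]
    exact h1.symm
  have hnorm : ∀ F : ℤ[X], ‖aeval (σ ((α : K) / (β : K))) F‖ = ‖σ ((HV F α β : 𝓞 K) : K)‖ := by
    intro F
    rw [← hHV F, norm_mul, norm_pow, hσβ, one_pow, one_mul]
  refine ⟨σ ((α : K) / (β : K)), ?_, ?_, ?_, ?_⟩
  · have h1 : σ ((α : K) / (β : K)) - (n : PadicAlgCl q) =
        σ ((α - n * β : 𝓞 K) : K) / σ (β : K) := by
      rw [eq_div_iff hσβ0]
      simp only [map_div₀, map_sub, map_mul, map_intCast]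
      field_simp
    rw [h1, norm_div, hσβ, div_one]
    by_cases h0 : α - n * β = 0
    · rw [h0]
      simp
    · rw [hσ _ h0]
      have h2 := (mem_pow_iff v h0 1).mp (by rwa [pow_one])
      calc ‖(q : PadicAlgCl q)‖ ^ ord v (α - n * β) ≤ ‖(q : PadicAlgCl q)‖ ^ 1 :=
            pow_le_pow_of_le_one hq0.le hq1.le h2
        _ = ‖(q : PadicAlgCl q)‖ := pow_one _
  · intro F
    by_cases h0 : HV F α β = 0
    · left
      rw [← norm_eq_zero, hnorm F, h0]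
      simp
    · right
      exact ⟨ord v (HV F α β), by rw [hnorm F, hσ _ h0]⟩
  · intro F hF
    rw [hcd] at hF
    rw [haev, Ne, map_eq_zero]
    exact hF
  · intro F m hm
    have hne : HV F α β ≠ 0 := by
      intro h0
      rw [hnorm F, h0] at hm
      have : (0 : ℝ) < ‖(q : PadicAlgCl q)‖ ^ m := pow_pos hq0 m
      rw [← hm] at this
      simp at this
    have hcd0 : HV F (W.c₄ ^ 3) W.Δ ≠ 0 := by
      intro h0
      apply hne
      have h1 : β ^ F.natDegree * HV F (W.c₄ ^ 3) W.Δ = W.Δ ^ F.natDegree * HV F α β := by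
        rw [← HV_scale, ← HV_scale, hαβ]
        congr 1
        · ring
        · ring
      rw [h0, mul_zero] at h1
      exact (mul_eq_zero.mp h1.symm).resolve_left (pow_ne_zero _ hW)
    obtain ⟨-, h2⟩ := ord_HV_int v (W.c₄ ^ 3) W.Δ α β hW F hβ hαβ hcd0
    rw [h2]
    rw [hnorm F, hσ _ hne] at hm
    rw [pow_right_injective₀ hq0 hq1.ne hm]

end Pool.Agent.SS.J
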