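import Mathlib

/-!
# Module J/Rec (S): quadratic reciprocity for `l = 7 mod 8`

`jac_two`: `jacobiSym 2 l = 1` (`jacobiSym.at_two`, `ZMod.χ₈_nat_eq_if_mod_eight`).
`jac_rec`: `p` odd prime, `p ≠ l`: `jacobiSym p l = jacobiSym (-l) p`: `jacobiSym.quadratic_reciprocity`
and `jacobiSym.neg`, `jacobiSym.at_neg_one`, or the cases `p mod 4`:
`jacobiSym.quadratic_reciprocity_one_mod_four`, `quadratic_reciprocity_three_mod_four`.
`jac_neg`: `jacobiSym (-q) l = - jacobiSym q l` as `jacobiSym (-1) l = -1` for `l = 3 mod 4`.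
-/

set_option autoImplicit false

namespace Pool.Agent.SS.J

theorem jac_two {l : ℕ} (h8 : l % 8 = 7) : jacobiSym 2 l = 1 := by
  have ho : Odd l := Nat.odd_iff.2 (by omega)
  rw [jacobiSym.at_two ho, ZMod.χ₈_nat_eq_if_mod_eight]
  rw [if_neg (by omega), if_pos (Or.inr h8)]

theorem jac_rec {l p : ℕ} (hl : l.Prime) (h8 : l % 8 = 7) (hp : p.Prime) (hp2 : p ≠ 2) :
    jacobiSym p l = jacobiSym (-l) p := by
  have hlo : Odd l := Nat.odd_iff.2 (by omega)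
  have hpo : Odd p := hp.odd_of_ne_two hp2
  rw [jacobiSym.neg _ hpo]
  rcases Nat.odd_mod_four_iff.1 (Nat.odd_iff.1 hpo) with h | h
  · rw [ZMod.χ₄_nat_one_mod_four h, one_mul, jacobiSym.quadratic_reciprocity_one_mod_four h hlo]
  · rw [ZMod.χ₄_nat_three_mod_four h, neg_one_mul,
      jacobiSym.quadratic_reciprocity_three_mod_four h (by omega)]

theorem jac_neg {l : ℕ} (h8 : l % 8 = 7) (q : ℕ) : jacobiSym (-q) l = -jacobiSym q l := by
  have hlo : Odd l := Nat.odd_iff.2 (by omega)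
  rw [jacobiSym.neg _ hlo, ZMod.χ₄_nat_three_mod_four (by omega), neg_one_mul]

/-- `l = -1 mod m`, `p ∣ m`: `-l = 1 mod p`. -/
theorem jac_neg_one_mod {l m p : ℕ} (hm : (m : ℤ) ∣ l + 1) (hpm : p ∣ m) :
    jacobiSym (-l) p = 1 := by
  have h1 : (p : ℤ) ∣ 1 - (-(l : ℤ)) := by
    have : (p : ℤ) ∣ (l : ℤ) + 1 := (Int.natCast_dvd_natCast.2 hpm).trans hm
    rwa [sub_neg_eq_add, add_comm]
  have h2 : (-(l : ℤ)) % p = 1 % p := (Int.modEq_iff_dvd.2 h1 : -(l : ℤ) ≡ 1 [ZMOD p])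
  rw [jacobiSym.mod_left' h2, jacobiSym.one_left]

end Pool.Agent.SS.J
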