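import Pool.Agent.Work.MP_a5099b_nt.J.Defs
import Pool.Agent.Work.MP_a5099b_nt.SpecC
import Pool.Agent.Work.MP_a5099b_nt.SpecD

/-!
# Module J/Res (S-M): the residue of `j` at a place of `Σ`

`k = 𝓞 K ⧸ v`, a finite field of characteristic `q` with `q^f` elements, `f` odd.
* `exists_res`: from `PSS`: `y = ᾱ/β̄ = W'.c₄^3/W'.Δ` and `SSj q y` (`card_iff`). If `y = 0` or
  `y = 1728` take `n = 0` or `1728`. Otherwise `regular` gives `y^(q^2) = y`; also `y^(q^f) = y`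
  (`FiniteField.pow_card`), `f = 2 g + 1`: `y^(q^f) = ((y^(q^(2 g)))^q) = y^q`, so `y^q = y`, hence
  `y` is in the prime field: `y = n` for an integer `n` (the polynomial `X^q - X` has the `q` roots
  `0, ..., q-1` in `k`; or `ZMod.algebra`, `FiniteField` : `FiniteField.X_pow_card_sub_X...`; lemma in
  Mathlib maybe `mem_bot_iff_pow_card`/`FiniteField.algebraMap_surjective_of_pow_card...`).
  `JMod W v n`: `α - n β ∈ v` since `ᾱ = y β̄ = n β̄`.
  `SSj q (n : ZMod q)`: `SSj_map` for the ring hom `ZMod q →+* k` (`ZMod.castHom`).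
* `res_unique`: `β c = α d`, `β' c = α' d`, `d ≠ 0`: `β α' = β' α` (cancel `d`; if `c = 0` then
  `α = α' = 0`), so `n β β' = α β' = α' β = n' β β'` in `k`: `n = n'` in `k`, so `q ∣ n - n'`
  (`CharP.intCast_eq_zero_iff`).
-/

set_option autoImplicit false

namespace Pool.Agent.SS.J

open NumberField IsDedekindDomain Polynomial

variable {K : Type} [Field K] [NumberField K]

private theorem charP_quot {q : ℕ} (hq' : q.Prime) (v : HeightOneSpectrum (𝓞 K))
    (hq : (q : 𝓞 K) ∈ v.asIdeal) : CharP (𝓞 K ⧸ v.asIdeal) q := by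
  have hnt : Nontrivial (𝓞 K ⧸ v.asIdeal) := Ideal.Quotient.nontrivial_iff.2 v.isPrime.ne_top
  have h0 : ((q : ℕ) : 𝓞 K ⧸ v.asIdeal) = 0 := by
    have := Ideal.Quotient.eq_zero_iff_mem.2 hq
    rwa [map_natCast] at this
  obtain ⟨p, hp⟩ := CharP.exists (𝓞 K ⧸ v.asIdeal)
  have hdvd := (CharP.cast_eq_zero_iff (𝓞 K ⧸ v.asIdeal) p q).1 h0
  rcases (Nat.dvd_prime hq').1 hdvd with h | h
  · exfalso
    rw [h] at hp
    have := (CharP.cast_eq_zero_iff (𝓞 K ⧸ v.asIdeal) 1 1).2 dvd_rfl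
    rw [Nat.cast_one] at this
    exact one_ne_zero this
  · rwa [h] at hp

private theorem prime_field {q : ℕ} [Fact q.Prime] {k : Type*} [Field k] [CharP k q] {y : k}
    (hy : y ^ q = y) : ∃ n : ℕ, y = n := by
  classical
  have hq : q.Prime := Fact.out
  by_contra hcon
  push Not at hcon
  let S : Finset k := (Finset.univ : Finset (Fin q)).image (fun i : Fin q => ((i : ℕ) : k))
  have hinj : Function.Injective (fun i : Fin q => ((i : ℕ) : k)) := by
    intro i j hij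
    have h1 : ((i : ℕ) : k) = ((j : ℕ) : k) := hij
    have h2 := (CharP.cast_eq_iff_mod_eq k q).1 h1
    rw [Nat.mod_eq_of_lt i.2, Nat.mod_eq_of_lt j.2] at h2
    exact Fin.ext h2
  have hcard : S.card = q := by
    rw [Finset.card_image_of_injective _ hinj, Finset.card_univ, Fintype.card_fin]
  have hyS : y ∉ S := by
    intro h
    obtain ⟨i, _, hi⟩ := Finset.mem_image.1 h
    exact hcon _ hi.symm
  have hP : (X ^ q - X : k[X]) ≠ 0 := FiniteField.X_pow_card_sub_X_ne_zero k hq.one_lt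
  have hsub : insert y S ⊆ (X ^ q - X : k[X]).roots.toFinset := by
    intro z hz
    rw [Multiset.mem_toFinset, mem_roots hP, IsRoot.def, eval_sub, eval_pow, eval_X, sub_eq_zero]
    rcases Finset.mem_insert.1 hz with h | h
    · rw [h, hy]
    · obtain ⟨i, _, hi⟩ := Finset.mem_image.1 h
      rw [← hi]
      have := ZMod.pow_card ((i : ℕ) : ZMod q)
      have h2 := congrArg (ZMod.castHom (dvd_refl q) k) this
      rwa [map_pow, map_natCast] at h2
  have h1 := Finset.card_le_card hsub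
  rw [Finset.card_insert_of_notMem hyS, hcard] at h1
  have h2 := (X ^ q - X : k[X]).roots.toFinset_card_le
  have h3 := card_roots' (X ^ q - X : k[X])
  rw [FiniteField.X_pow_card_sub_X_natDegree_eq k hq.one_lt] at h3
  omega

theorem exists_res {q : ℕ} [Fact q.Prime] (h5 : 5 ≤ q) (W : WeierstrassCurve (𝓞 K))
    (v : HeightOneSpectrum (𝓞 K)) (hv : v ∈ Sig q W) :
    ∃ n : ℤ, JMod W v n ∧ SSj q (n : ZMod q) := by
  classical
  have hq' : q.Prime := Fact.out
  obtain ⟨hq, ⟨f, hf, hcard⟩, W', hW', ⟨α, β, hβ, hαβ, hred⟩, hpt⟩ := hv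
  have hmax : v.asIdeal.IsMaximal := v.isMaximal
  letI : Field (𝓞 K ⧸ v.asIdeal) := Ideal.Quotient.field v.asIdeal
  haveI : CharP (𝓞 K ⧸ v.asIdeal) q := charP_quot hq' v hq
  have hfin : Finite (𝓞 K ⧸ v.asIdeal) := by
    apply Nat.finite_of_card_ne_zero
    rw [hcard]
    exact pow_ne_zero _ hq'.ne_zero
  letI : Fintype (𝓞 K ⧸ v.asIdeal) := Fintype.ofFinite _
  obtain ⟨y, hy⟩ : ∃ y : 𝓞 K ⧸ v.asIdeal, y = W'.c₄ ^ 3 / W'.Δ := ⟨_, rfl⟩
  have hss : SSj q y := by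
    rw [hy]
    exact (card_iff hq' h5 W' hW').1 hpt
  have hβ' : Ideal.Quotient.mk v.asIdeal β ≠ 0 := fun h => hβ (Ideal.Quotient.eq_zero_iff_mem.1 h)
  have hyα : Ideal.Quotient.mk v.asIdeal α = y * Ideal.Quotient.mk v.asIdeal β := by
    rw [hy, div_mul_eq_mul_div, eq_div_iff hW', ← hred]
    ring
  obtain ⟨n, hn⟩ : ∃ n : ℤ, y = n := by
    by_cases h0 : y = 0
    · exact ⟨0, by rw [h0]; simp⟩
    by_cases h1 : y = 1728
    · exact ⟨1728, by rw [h1]; norm_num⟩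
    obtain ⟨h2, _⟩ := regular hq' h5 y hss h0 h1
    have h3 : y ^ (q ^ f) = y := by
      have := FiniteField.pow_card y
      rwa [← Nat.card_eq_fintype_card, hcard] at this
    obtain ⟨g, rfl⟩ := hf
    have h4 : ∀ g : ℕ, y ^ (q ^ (2 * g)) = y := by
      intro g
      induction g with
      | zero => simp
      | succ g ih =>
        have e : q ^ (2 * (g + 1)) = q ^ (2 * g) * q ^ 2 := by ring
        rw [e, pow_mul, ih, h2]
    have h5' : y ^ q = y := by
      have e : q ^ (2 * g + 1) = q ^ (2 * g) * q := by ring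
      rw [e, pow_mul, h4 g] at h3
      exact h3
    obtain ⟨n, hn⟩ := prime_field h5'
    exact ⟨n, by rw [hn]; simp⟩
  refine ⟨n, ⟨α, β, hβ, hαβ, ?_⟩, ?_⟩
  · rw [← Ideal.Quotient.eq_zero_iff_mem, map_sub, map_mul, map_intCast, hyα, hn, sub_self]
  · have h := (SSj_map hq' h5 (ZMod.castHom (dvd_refl q) (𝓞 K ⧸ v.asIdeal)) ((n : ℤ) : ZMod q)).1
    apply h
    rw [map_intCast, ← hn]
    exact hss

theorem res_unique {q : ℕ} [Fact q.Prime] (W : WeierstrassCurve (𝓞 K)) (hW : W.Δ ≠ 0)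
    (v : HeightOneSpectrum (𝓞 K)) (hq : (q : 𝓞 K) ∈ v.asIdeal) {n n' : ℤ} (hn : JMod W v n)
    (hn' : JMod W v n') : (n : ZMod q) = (n' : ZMod q) := by
  have hq' : q.Prime := Fact.out
  obtain ⟨α, β, hβ, h1, h2⟩ := hn
  obtain ⟨α', β', hβ', h1', h2'⟩ := hn'
  have hmax : v.asIdeal.IsMaximal := v.isMaximal
  letI : Field (𝓞 K ⧸ v.asIdeal) := Ideal.Quotient.field v.asIdeal
  haveI : CharP (𝓞 K ⧸ v.asIdeal) q := charP_quot hq' v hq
  have h3 : β' * α = β * α' := by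
    apply mul_right_cancel₀ hW
    linear_combination β * h1' - β' * h1
  have hb : Ideal.Quotient.mk v.asIdeal β ≠ 0 := fun h => hβ (Ideal.Quotient.eq_zero_iff_mem.1 h)
  have hb' : Ideal.Quotient.mk v.asIdeal β' ≠ 0 :=
    fun h => hβ' (Ideal.Quotient.eq_zero_iff_mem.1 h)
  have e1 : Ideal.Quotient.mk v.asIdeal α = n * Ideal.Quotient.mk v.asIdeal β := by
    rw [← sub_eq_zero, ← map_intCast (Ideal.Quotient.mk v.asIdeal), ← map_mul, ← map_sub]
    exact Ideal.Quotient.eq_zero_iff_mem.2 h2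
  have e2 : Ideal.Quotient.mk v.asIdeal α' = n' * Ideal.Quotient.mk v.asIdeal β' := by
    rw [← sub_eq_zero, ← map_intCast (Ideal.Quotient.mk v.asIdeal), ← map_mul, ← map_sub]
    exact Ideal.Quotient.eq_zero_iff_mem.2 h2'
  have e3 := congrArg (Ideal.Quotient.mk v.asIdeal) h3
  rw [map_mul, map_mul, e1, e2] at e3
  have e4 : ((n : ℤ) : 𝓞 K ⧸ v.asIdeal) = ((n' : ℤ) : 𝓞 K ⧸ v.asIdeal) := by
    apply mul_right_cancel₀ (mul_ne_zero hb hb')
    linear_combination e3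
  rw [ZMod.intCast_eq_intCast_iff_dvd_sub]
  have e5 : ((n' - n : ℤ) : 𝓞 K ⧸ v.asIdeal) = 0 := by
    rw [Int.cast_sub, e4, sub_self]
  exact (CharP.intCast_eq_zero_iff (𝓞 K ⧸ v.asIdeal) q _).1 e5

theorem JMod_congr {q : ℕ} [Fact q.Prime] (W : WeierstrassCurve (𝓞 K))
    (v : HeightOneSpectrum (𝓞 K)) (hq : (q : 𝓞 K) ∈ v.asIdeal) {n n' : ℤ} (hn : JMod W v n)
    (h : (n : ZMod q) = (n' : ZMod q)) : JMod W v n' := by
  obtain ⟨α, β, hβ, h1, h2⟩ := hn
  refine ⟨α, β, hβ, h1, ?_⟩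
  rw [ZMod.intCast_eq_intCast_iff_dvd_sub] at h
  obtain ⟨c, hc⟩ := h
  have e : α - n' * β = (α - n * β) - (q : 𝓞 K) * ((c : 𝓞 K) * β) := by
    have : (n' : 𝓞 K) = n + q * c := by
      have h3 : n' = n + q * c := by linarith
      rw [h3]
      push_cast
      ring
    rw [this]
    ring
  rw [e]
  exact Ideal.sub_mem _ h2 (Ideal.mul_mem_right _ _ hq)

end Pool.Agent.SS.J
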