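import Pool.Agent.Work.MP_a5099b_nt.J.Defs
import Pool.Agent.Work.MP_a5099b_nt.J.HVal
import Pool.Agent.Work.MP_a5099b_nt.J.Ord
import Pool.Agent.Work.MP_a5099b_nt.J.Frac
import Pool.Agent.Work.MP_a5099b_nt.J.Ordn
import Pool.Agent.Work.MP_a5099b_nt.J.Pt
import Pool.Agent.Work.MP_a5099b_nt.J.Res
import Pool.Agent.Work.MP_a5099b_nt.J.Par
import Pool.Agent.Work.MP_a5099b_nt.J.Rec
import Pool.Agent.Work.MP_a5099b_nt.SpecD
import Pool.Agent.Work.MP_a5099b_nt.SpecG

/-!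
# Module J/Fin2: parity of the valuations at the places above `q`, and symbols of the norms
-/

set_option autoImplicit false

namespace Pool.Agent.SS.J

open NumberField IsDedekindDomain Polynomial

variable {K : Type} [Field K] [NumberField K]

theorem good_iter {q l : ℕ} (hq : q.Prime) (hl : LPrime l) (i : ℕ) :
    Good l ((TT q)^[i] (HH l)) := by
  induction i with
  | zero => exact HH_good hl
  | succ i ih =>
    rw [Function.iterate_succ_apply']
    exact Good.TT hq ih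

theorem good_closure {q l : ℕ} (hq : q.Prime) (hl : LPrime l) {F : ℤ[X]}
    (hF : F ∈ Submonoid.closure (Set.range fun i => (TT q)^[i] (HH l))) : Good l F := by
  induction hF using Submonoid.closure_induction with
  | mem x hx =>
    obtain ⟨i, rfl⟩ := hx
    exact good_iter hq hl i
  | one => exact Good.one
  | mul x y _ _ hx hy => exact Good.mul hx hy

theorem ne_closure {q l : ℕ} {k : Type*} [Field k] (x : k)
    (h : ∀ i, aeval x ((TT q)^[i] (HH l)) ≠ 0) {F : ℤ[X]}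
    (hF : F ∈ Submonoid.closure (Set.range fun i => (TT q)^[i] (HH l))) : aeval x F ≠ 0 := by
  induction hF using Submonoid.closure_induction with
  | mem x hx =>
    obtain ⟨i, rfl⟩ := hx
    exact h i
  | one => simp
  | mul x y _ _ hx hy =>
    rw [map_mul]
    exact mul_ne_zero hx hy

/-- Parity at a place of `Σ`. -/
theorem loc_parity {q l : ℕ} [Fact q.Prime] (h5 : 5 ≤ q) (hl : LPrime l) (hlq : l ≠ q)
    (W : WeierstrassCurve (𝓞 K)) (hW : W.Δ ≠ 0) (v : HeightOneSpectrum (𝓞 K))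
    (hq : (q : 𝓞 K) ∈ v.asIdeal) (hur : (q : 𝓞 K) ∉ v.asIdeal ^ 2) (n : ℤ) (hn : JMod W v n)
    (hss : SSj q (n : ZMod q)) (h0 : (n : ZMod q) ≠ 0) (h1 : (n : ZMod q) ≠ 1728)
    (hnv : ∀ i, aeval ((W.c₄ ^ 3 : 𝓞 K) / (W.Δ : 𝓞 K) : K) ((TT q)^[i] (HH l)) ≠ 0)
    (E : ℕ → ℤ[X])
    (hE : ∀ k, E k ∈ Submonoid.closure (Set.range fun i => (TT q)^[i] (HH l)))
    (hEt : ∀ (x : PadicAlgCl q) (n : ℤ), ‖x - (n : PadicAlgCl q)‖ ≤ ‖(q : PadicAlgCl q)‖ →
        GGAt q (n : ZMod q) ((n : ZMod q)) ≠ 0 →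
        (∀ F : ℤ[X], aeval x F = 0 ∨ ∃ m : ℕ, ‖aeval x F‖ = ‖(q : PadicAlgCl q)‖ ^ m) →
        (∀ i, aeval x ((TT q)^[i] (HH l)) ≠ 0) →
        ∃ k0, ∀ k ≥ k0, ∃ m : ℕ, ‖aeval x (E k)‖ = ‖(q : PadicAlgCl q)‖ ^ m ∧
          m ≡ ((HH l).map (Int.castRingHom (ZMod q))).rootMultiplicity (n : ZMod q) [MOD 2]) :
    ∃ k0, ∀ k ≥ k0, ord v (HV (E k) (W.c₄ ^ 3) W.Δ) ≡
      (PhiAt l (n : ZMod q)).rootMultiplicity (n : ZMod q) [MOD 2] := by
  have hqp : q.Prime := Fact.out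
  obtain ⟨x, hx1, hx2, hx3, hx4⟩ := exists_point W hW v hq hur n hn
  have hreg := regular hqp h5 (n : ZMod q) hss h0 h1
  have hG : GGAt q (n : ZMod q) (n : ZMod q) ≠ 0 := by
    have := hreg.2
    rwa [ZMod.pow_card] at this
  obtain ⟨k0, hk0⟩ := hEt x n hx1 hG hx2 (fun i => hx3 _ (hnv i))
  refine ⟨k0, fun k hk => ?_⟩
  obtain ⟨m, hm1, hm2⟩ := hk0 k hk
  rw [hx4 (E k) m hm1]
  have hev : Even (E k).natDegree := (good_closure hqp hl (hE k)).even
  have h6 : (E k).natDegree * ord v W.Δ ≡ 0 [MOD 2] := by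
    rw [Nat.modEq_zero_iff_dvd]
    exact (even_iff_two_dvd.mp hev).mul_right _
  have h7 := hm2.trans (mult_HH h5 hl hlq (n : ZMod q) h0 h1)
  simpa using h6.add h7

/-- At the other places above `q` of odd residue degree the valuation is even. -/
theorem loc_even {q l : ℕ} [Fact q.Prime] (h5 : 5 ≤ q) (W : WeierstrassCurve (𝓞 K))
    (hW : W.Δ ≠ 0) (v : HeightOneSpectrum (𝓞 K)) (hq : (q : 𝓞 K) ∈ v.asIdeal)
    (hord : ¬ PSS q W v) (hjq : jacobiSym (-l) q = -1) {F : ℤ[X]} (hF : Good l F)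
    (hne : HV F (W.c₄ ^ 3) W.Δ ≠ 0) : Even (ord v (HV F (W.c₄ ^ 3) W.Δ)) := by
  have hqp : q.Prime := Fact.out
  by_cases h : ∃ α β : 𝓞 K, β ∉ v.asIdeal ∧ β * W.c₄ ^ 3 = α * W.Δ
  · obtain ⟨α, β, hβ, hj⟩ := h
    obtain ⟨h1, h2⟩ := ord_HV_int v _ _ α β hW F hβ hj hne
    rw [h2]
    have h3 := not_mem_of_not_pss W v hqp h5 hq hord hjq hF α β hβ hj
    rw [(ord_zero_iff v h1).mpr h3, add_zero]
    exact hF.even.mul_right _
  · rw [ord_HV_nonint v _ _ hW F hF.monic h]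
    exact hF.even.mul_right _

/-- The symbol at a place which is not above `q` and contains the value. -/
theorem symb_one {q l m : ℕ} (hl : LPrime l) (W : WeierstrassCurve (𝓞 K))
    (hlm : (m : ℤ) ∣ l + 1) (h3 : 3 ∣ m)
    (hbad : ∀ (v : HeightOneSpectrum (𝓞 K)) (p : ℕ), p.Prime → (p : 𝓞 K) ∈ v.asIdeal →
        (W.Δ ∈ v.asIdeal ∨ SSRed W v) → p = 2 ∨ p = q ∨ p ∣ m)
    {F : ℤ[X]} (hF : Good l F) (v : HeightOneSpectrum (𝓞 K)) (hqv : (q : 𝓞 K) ∉ v.asIdeal)
    (hv : HV F (W.c₄ ^ 3) W.Δ ∈ v.asIdeal) :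
    jacobiSym (Ideal.absNorm v.asIdeal : ℤ) l = 1 := by
  obtain ⟨p, hp, hpv, -, f, hf, hpf, -⟩ := exists_prime_mem v
  have key : jacobiSym p l = 1 := by
    by_cases hp2 : p = 2
    · subst hp2
      exact_mod_cast jac_two hl.mod8
    have hpq : p ≠ q := by
      rintro rfl
      exact hqv hpv
    rw [jac_rec hl.prime hl.mod8 hp hp2]
    by_cases hpm : p ∣ m
    · exact jac_neg_one_mod hlm hpm
    have hgood : ¬ (W.Δ ∈ v.asIdeal ∨ SSRed W v) := by
      intro h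
      rcases hbad v p hp hpv h with h | h | h
      · exact hp2 h
      · exact hpq h
      · exact hpm h
    push Not at hgood
    have hp3 : p ≠ 3 := by
      rintro rfl
      exact hpm h3
    have h5 : 5 ≤ p := by
      by_contra hlt
      push Not at hlt
      have := hp.two_le
      interval_cases p
      · exact hp2 rfl
      · exact hp3 rfl
      · revert hp
        decide
    by_contra hne1
    have hcases : p = l ∨ jacobiSym (-l) p = -1 := by
      by_cases hpl : p = l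
      · exact Or.inl hpl
      · right
        have hcop : IsCoprime (-(l : ℤ)) (p : ℤ) := by
          rw [IsCoprime.neg_left_iff, Nat.isCoprime_iff_coprime]
          exact (Nat.coprime_primes hl.prime hp).mpr (Ne.symm hpl)
        rcases jacobiSym.eq_one_or_neg_one (Int.isCoprime_iff_gcd_eq_one.mp hcop) with h | h
        · exact absurd h hne1
        · exact h
    exact not_mem_of_ordinary W v hp h5 hpv hgood.1 hgood.2 hcases hF hv
  rw [hpf]
  push_cast
  rw [jacobiSym.pow_left, key, one_pow]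

end Pool.Agent.SS.J
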