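import Pool.Agent.Work.MP_a5099b_nt.A.Lat
import Pool.Agent.Work.CM.Jsu

/-!
# Module J/Sur: the two facts on the invariants of lattices
-/

set_option autoImplicit false

namespace Pool.Agent.SS.J

open Pool.Agent.Work.CM
open scoped Pointwise

theorem jL_hom : ∀ L L' : Submodule ℤ ℂ, IsLat L → IsLat L' → jL L = jL L' →
    ∃ c : ℂ, c ≠ 0 ∧ ∀ z, z ∈ L ↔ c * z ∈ L' := by
  intro L L' hL hL' h
  obtain ⟨m, hm, rfl⟩ := exists_smul_of_jL hL hL' h
  refine ⟨m, hm, fun z => ?_⟩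
  constructor
  · intro hz
    exact Submodule.smul_mem_pointwise_smul z m L hz
  · intro hz
    obtain ⟨y, hy, hyz⟩ := hz
    have : y = z := mul_left_cancel₀ hm hyz
    rwa [← this]

theorem jL_sur : ∀ x : ℂ, ∃ L : Submodule ℤ ℂ, IsLat L ∧ jL L = x := by
  intro x
  obtain ⟨τ, hτ⟩ := exists_j x
  have hlat : IsLat (tauLat τ) := tauLat_isLat τ
  refine ⟨tauLat τ, hlat, ?_⟩
  rw [jL_eq, e4_tauLat, dl_tauLat, hτ, mul_div_assoc, div_self, mul_one]
  rw [← dl_tauLat]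
  exact dl_ne_zero hlat

end Pool.Agent.SS.J
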