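import Mathlib

/-!
# Module J/Cnt (S): a sum over the fibres

`S` finite, `r : S → Z`; the sum of `g (r w)` over `S` is the sum over the values `y` of
`#{w | r w = y} * g y` (`Finset.sum_fiberwise`, `Finset.card_eq_sum_card_fiberwise`): modulo 2 only
`y0` counts.
-/

set_option autoImplicit false

namespace Pool.Agent.SS.J

theorem fib_sum {ι κ : Type*} [DecidableEq κ] (S : Finset ι) (r : ι → κ) (g : κ → ℕ) (y0 : κ)
    (h0 : Odd (S.filter fun w => r w = y0).card)
    (h1 : ∀ y, y ≠ y0 → Even (S.filter fun w => r w = y).card) :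
    ∑ w ∈ S, g (r w) ≡ g y0 [MOD 2] := by
  have hs : ∑ w ∈ S, g (r w)
      = ∑ y ∈ S.image r, (S.filter fun w => r w = y).card • g y := Finset.sum_comp g r
  have hy0 : y0 ∈ S.image r := by
    obtain ⟨w, hw⟩ := Finset.card_pos.mp h0.pos
    rw [Finset.mem_filter] at hw
    exact Finset.mem_image.mpr ⟨w, hw.1, hw.2⟩
  rw [hs, ← Finset.add_sum_erase _ _ hy0]
  have he : Even (∑ y ∈ (S.image r).erase y0, (S.filter fun w => r w = y).card • g y) := by
    refine Finset.even_sum _ ?_
    intro y hy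
    have := h1 y (Finset.ne_of_mem_erase hy)
    simpa [smul_eq_mul] using this.mul_right (g y)
  obtain ⟨k, hk⟩ := h0
  obtain ⟨e, he⟩ := he
  rw [he, hk, smul_eq_mul]
  have : (2 * k + 1) * g y0 + (e + e) = g y0 + 2 * (k * g y0 + e) := by ring
  rw [this]
  exact (Nat.modEq_iff_dvd' (by omega)).mpr ⟨k * g y0 + e, by omega⟩ |>.symm

end Pool.Agent.SS.J
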