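import Pool.Agent.Work.MP_a5099b_nt.J.Fin1
import Pool.Agent.Work.MP_a5099b_nt.J.Fin2
import Pool.Agent.Work.MP_a5099b_nt.J.Cm
import Pool.Agent.Work.MP_a5099b_nt.J.Cnt
import Pool.Agent.Work.MP_a5099b_nt.J.Bad
import Pool.Agent.Work.MP_a5099b_nt.SpecK
import Pool.Agent.Work.MP_a5099b_nt.SpecK1
import Pool.Agent.Work.MP_a5099b_nt.J.Sur

/-!
# Module J/Main3: assembly of the version for every prime `q ≥ 7` (driver: helper91)
-/

set_option autoImplicit false

namespace Pool.Agent.SS.J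

open NumberField IsDedekindDomain Polynomial
open Pool.Agent.Work.CM

theorem main3
    (avg1 : ∀ {q : ℕ} [Fact q.Prime] (_ : 7 ≤ q) (_ : q % 4 = 1)
      (S : Finset (ZMod q)) (_ : ∀ y ∈ S, SSj q y ∧ y ≠ 0 ∧ y ≠ 1728 ∧ y ≠ 8000)
      (c : ZMod q → ℕ) (_ : Odd (∑ y ∈ S, c y)) {m : ℕ} (_ : Odd m) (_ : Squarefree m)
      (_ : ¬ q ∣ m) {r : ℕ} (_ : Nat.Coprime r (8 * m)) (_ : r % 4 = 3) (B : ℕ),
      ∃ l : ℕ, l.Prime ∧ B < l ∧ l ≡ r [MOD 8 * m] ∧ jacobiSym (-q) l = 1 ∧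
        Odd (∑ y ∈ S, c y * (PhiAt l y).rootMultiplicity y))
    (hom : ∀ L L' : Submodule ℤ ℂ, IsLat L → IsLat L' → jL L = jL L' →
      ∃ c : ℂ, c ≠ 0 ∧ ∀ z, z ∈ L ↔ c * z ∈ L')
    (sur : ∀ x : ℂ, ∃ L : Submodule ℤ ℂ, IsLat L ∧ jL L = x)
    {K : Type} [Field K] [NumberField K] [IsTotallyComplex K] (W : WeierstrassCurve (𝓞 K))
    (hW : W.Δ ≠ 0) {q : ℕ} (hq : q.Prime) (h7 : 7 ≤ q)
    (hur : ∀ v ∈ Sig q W, (q : 𝓞 K) ∉ v.asIdeal ^ 2)
    (h0 : ∀ v ∈ Sig q W, ¬ JMod W v 0 ∧ ¬ JMod W v 1728)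
    (h8 : q % 4 = 1 → ∀ v ∈ Sig q W, ¬ JMod W v 8000)
    (h1 : Odd (Sig q W).ncard) :
    {v : HeightOneSpectrum (𝓞 K) | SSRed W v}.Infinite := by
  classical
  by_contra hfin
  rw [Set.not_infinite] at hfin
  have : Fact q.Prime := ⟨hq⟩
  have h5 : 5 ≤ q := by omega
  obtain ⟨m, hm, hmsf, hqm, h3m, hbad⟩ := exists_bad hq h7 W hW hfin
  have hmpos : 0 < m := hm.pos
  -- the places of `Σ`
  have hq0 : (q : 𝓞 K) ≠ 0 := by
    exact_mod_cast hq.ne_zero
  have hSfin : (Sig q W).Finite := by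
    have hI : Ideal.span {(q : 𝓞 K)} ≠ 0 := by
      simpa using hq0
    apply (Ideal.finite_factors hI).subset
    intro v hv
    show v.asIdeal ∣ Ideal.span {(q : 𝓞 K)}
    rw [Ideal.dvd_span_singleton]
    exact hv.1
  have hex : ∀ v : HeightOneSpectrum (𝓞 K), ∃ n : ℤ, v ∈ Sig q W →
      JMod W v n ∧ SSj q (n : ZMod q) := by
    intro v
    by_cases hv : v ∈ Sig q W
    · obtain ⟨n, hn⟩ := exists_res h5 W v hv
      exact ⟨n, fun _ => hn⟩
    · exact ⟨0, fun h => absurd h hv⟩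
  choose r hr using hex
  have hr0 : ∀ v ∈ Sig q W, (r v : ZMod q) ≠ 0 := by
    intro v hv h
    apply (h0 v hv).1
    exact JMod_congr W v hv.1 (hr v hv).1 (by simpa using h)
  have hr1 : ∀ v ∈ Sig q W, (r v : ZMod q) ≠ 1728 := by
    intro v hv h
    apply (h0 v hv).2
    exact JMod_congr W v hv.1 (hr v hv).1 (by simpa using h)
  have hr8 : q % 4 = 1 → ∀ v ∈ Sig q W, (r v : ZMod q) ≠ 8000 := by
    intro h14 v hv h
    apply h8 h14 v hv
    exact JMod_congr W v hv.1 (hr v hv).1 (by simpa using h)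
  have hiff : ∀ v ∈ Sig q W, ∀ n : ℤ, JMod W v n ↔ (r v : ZMod q) = (n : ZMod q) := by
    intro v hv n
    constructor
    · intro h
      exact res_unique W hW v hv.1 (hr v hv).1 h
    · intro h
      exact JMod_congr W v hv.1 (hr v hv).1 h
  -- the weights
  let c : ZMod q → ℕ := fun y => (hSfin.toFinset.filter fun w => (r w : ZMod q) = y).card
  let S : Finset (ZMod q) := hSfin.toFinset.image fun w => (r w : ZMod q)
  have hSS : ∀ y ∈ S, SSj q y ∧ y ≠ 0 ∧ y ≠ 1728 := by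
    intro y hy
    obtain ⟨w, hw, rfl⟩ := Finset.mem_image.mp hy
    rw [hSfin.mem_toFinset] at hw
    exact ⟨(hr w hw).2, hr0 w hw, hr1 w hw⟩
  have hcsum : ∀ g : ZMod q → ℕ, ∑ y ∈ S, c y * g y =
      ∑ w ∈ hSfin.toFinset, g (r w : ZMod q) := by
    intro g
    rw [← Finset.sum_fiberwise_of_maps_to (s := hSfin.toFinset) (t := S)
      (g := fun w => (r w : ZMod q)) (fun w hw => Finset.mem_image_of_mem _ hw)]
    apply Finset.sum_congr rfl
    intro y _
    rw [Finset.sum_congr rfl (g := fun _ => g y) (by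
      intro w hw
      rw [(Finset.mem_filter.mp hw).2])]
    rw [Finset.sum_const, smul_eq_mul]
  have hcodd : Odd (∑ y ∈ S, c y) := by
    have := hcsum fun _ => 1
    simp only [mul_one, Finset.sum_const, smul_eq_mul] at this
    rw [this, ← Set.ncard_eq_toFinset_card _ hSfin]
    exact h1
  -- the bound for `l`
  obtain ⟨τ⟩ : Nonempty (K →+* ℂ) := inferInstance
  obtain ⟨B, hB⟩ := nonvanish hom sur hq (τ ((W.c₄ ^ 3 : 𝓞 K) / (W.Δ : 𝓞 K) : K))
  -- the prime `l`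
  have hcop : Nat.Coprime (8 * m - 1) (8 * m) := by
    have h8 : 1 ≤ 8 * m := by omega
    have : Nat.Coprime (8 * m - 1) ((8 * m - 1) + 1) := by
      simp
    rwa [Nat.sub_add_cancel h8] at this
  obtain ⟨l, hl, hBl, hlr, hjq, hodd⟩ : ∃ l : ℕ, l.Prime ∧ B < l ∧
      l ≡ 8 * m - 1 [MOD 8 * m] ∧ jacobiSym (-q) l = 1 ∧
      Odd (∑ y ∈ S, c y * (PhiAt l y).rootMultiplicity y) := by
    rcases (by
      have := hq.odd_of_ne_two (by omega)
      rw [Nat.odd_iff] at this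
      omega : q % 4 = 1 ∨ q % 4 = 3) with h4 | h4
    · refine avg1 h7 h4 S ?_ c hcodd hm hmsf hqm hcop (by omega) B
      intro y hy
      refine ⟨(hSS y hy).1, (hSS y hy).2.1, (hSS y hy).2.2, ?_⟩
      obtain ⟨w, hw, rfl⟩ := Finset.mem_image.mp hy
      rw [hSfin.mem_toFinset] at hw
      exact hr8 h4 w hw
    · exact exists_prime_avg h7 h4 S hSS c hcodd hm hmsf hqm hcop B
  have hl8m : ((8 * m : ℕ) : ℤ) ∣ l + 1 := by
    have h8 : l + 1 ≡ 0 [MOD 8 * m] := by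
      have h9 : l + 1 ≡ (8 * m - 1) + 1 [MOD 8 * m] := hlr.add_right 1
      rw [Nat.sub_add_cancel (by omega : 1 ≤ 8 * m)] at h9
      exact h9.trans (by simp [Nat.ModEq])
    have h9 := (Nat.modEq_zero_iff_dvd.mp h8)
    exact_mod_cast h9
  have hLP : LPrime l := by
    refine ⟨hl, ?_, ?_⟩
    · have : (8 : ℤ) ∣ l + 1 := dvd_trans (by push_cast; exact dvd_mul_right _ _) hl8m
      omega
    · have : (3 : ℤ) ∣ l + 1 := by
        refine dvd_trans ?_ hl8m
        push_cast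
        exact dvd_mul_of_dvd_right (by exact_mod_cast h3m) _
      omega
  have hlm : (m : ℤ) ∣ l + 1 := dvd_trans (by push_cast; exact dvd_mul_left _ _) hl8m
  have hlq : l ≠ q := by
    rintro rfl
    have : jacobiSym (-(l : ℤ)) l = 0 := by
      rw [jacobiSym.eq_zero_iff_not_coprime]
      simp [hl.ne_one]
    rw [this] at hjq
    exact absurd hjq (by norm_num)
  have hjql : jacobiSym q l = -1 := by
    have := jac_neg hLP.mod8 q
    rw [hjq] at this
    linarith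
  have hjlq : jacobiSym (-l) q = -1 := by
    rw [← jac_rec hl hLP.mod8 hq (by omega)]
    exact hjql
  -- the polynomials
  obtain ⟨E, hE, hEt⟩ := tree (q := q) h5 (HH l) (isHH hLP).monic
  have hnv : ∀ i, aeval ((W.c₄ ^ 3 : 𝓞 K) / (W.Δ : 𝓞 K) : K) ((TT q)^[i] (HH l)) ≠ 0 := by
    intro i h
    apply hB l hLP hBl i
    have h3 : aeval (τ ((W.c₄ ^ 3 : 𝓞 K) / (W.Δ : 𝓞 K) : K)) ((TT q)^[i] (HH l)) =
        τ (aeval ((W.c₄ ^ 3 : 𝓞 K) / (W.Δ : 𝓞 K) : K) ((TT q)^[i] (HH l))) := by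
      rw [aeval_def, aeval_def, hom_eval₂]
      congr 1
      exact RingHom.ext_int _ _
    rw [h3, h, map_zero]
  have hloc : ∀ v : HeightOneSpectrum (𝓞 K), ∃ k0 : ℕ, v ∈ Sig q W → ∀ k ≥ k0,
      ord v (HV (E k) (W.c₄ ^ 3) W.Δ) ≡
        (PhiAt l (r v : ZMod q)).rootMultiplicity (r v : ZMod q) [MOD 2] := by
    intro v
    by_cases hv : v ∈ Sig q W
    · obtain ⟨k0, hk0⟩ := loc_parity h5 hLP hlq W hW v hv.1 (hur v hv) (r v) (hr v hv).1
        (hr v hv).2 (hr0 v hv) (hr1 v hv) hnv E hE hEt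
      exact ⟨k0, fun _ => hk0⟩
    · exact ⟨0, fun h => absurd h hv⟩
  choose k0 hk0 using hloc
  obtain ⟨k, hk⟩ : ∃ k, ∀ v ∈ Sig q W, k0 v ≤ k := by
    refine ⟨hSfin.toFinset.sup k0, fun v hv => ?_⟩
    exact Finset.le_sup (f := k0) (hSfin.mem_toFinset.mpr hv)
  have hgood : Good l (E k) := good_closure hq hLP (hE k)
  have hne : HV (E k) (W.c₄ ^ 3) W.Δ ≠ 0 := by
    intro h
    have h3 : HV (E k) ((W.c₄ ^ 3 : 𝓞 K) : K) ((W.Δ : 𝓞 K) : K) = 0 := by
      have := HV_map (algebraMap (𝓞 K) K) (E k) (W.c₄ ^ 3) W.Δ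
      rw [h, map_zero] at this
      exact this.symm
    have hΔ : ((W.Δ : 𝓞 K) : K) ≠ 0 := by
      simpa using hW
    rw [HV_field _ _ _ hΔ] at h3
    rcases mul_eq_zero.mp h3 with h4 | h4
    · exact pow_ne_zero _ hΔ h4
    · exact ne_closure _ hnv (hE k) h4
  -- first evaluation
  have e1 := jac_eq_one hl hgood (W.c₄ ^ 3) W.Δ hne (by
    intro v hv hmem
    have hgl : ¬ (W.Δ ∈ v.asIdeal ∨ SSRed W v) := by
      intro h
      rcases hbad v l hl hv h with h | h | h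
      · have := hLP.mod8
        omega
      · exact hlq h
      · have h4 : (l : ℤ) ∣ l + 1 := dvd_trans (by exact_mod_cast h) hlm
        have h5 : (l : ℤ) ∣ 1 := by
          simpa using dvd_sub h4 (dvd_refl (l : ℤ))
        have h6 : l ∣ 1 := by exact_mod_cast h5
        exact hl.one_lt.ne' (Nat.dvd_one.mp h6)
    push Not at hgl
    have := hLP.mod8
    exact not_mem_of_ordinary W v hl (by omega) hv hgl.1 hgl.2 (Or.inl rfl) hgood hmem)
  -- second evaluation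
  have e2 := jac_eq_pow (l := l) hne q hSfin.toFinset
    (fun v => (PhiAt l (r v : ZMod q)).rootMultiplicity (r v : ZMod q))
    (fun v hqv hv => symb_one hLP W hlm h3m hbad hgood v hqv hv)
    (by
      intro v hqv hvS
      obtain ⟨p, hp, hpv, hpu, f, hf, hpf, hpf2⟩ := exists_prime_mem v
      have hpq : p = q := (hpu q hq hqv).symm
      subst hpq
      rw [hpf]
      push_cast
      rw [jacobiSym.pow_left, hjql, ← pow_mul]
      rcases Nat.even_or_odd f with hfe | hfo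
      · exact Even.neg_one_pow (hfe.mul_right _)
      · have hnp : ¬ PSS p W v := by
          intro h
          apply hvS
          rw [hSfin.mem_toFinset]
          exact ⟨hqv, ⟨f, hfo, hpf2⟩, h⟩
        exact Even.neg_one_pow ((loc_even h5 W hW v hqv hnp hjlq hgood hne).mul_left _))
    (by
      intro v hv
      rw [hSfin.mem_toFinset] at hv
      refine ⟨?_, hk0 v hv k (hk v hv)⟩
      obtain ⟨p, hp, hpv, hpu, f, hf, hpf, hpf2⟩ := exists_prime_mem v
      have hpq : p = q := (hpu q hq hv.1).symm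
      subst hpq
      obtain ⟨f', hf'o, hf'⟩ := hv.2.1
      have hff : f = f' := Nat.pow_right_injective hp.two_le (hpf2.symm.trans hf')
      rw [hpf]
      push_cast
      rw [jacobiSym.pow_left, hjql, hff]
      exact hf'o.neg_one_pow)
  -- the exponent is odd
  have hoddsum : Odd (∑ w ∈ hSfin.toFinset,
      (PhiAt l (r w : ZMod q)).rootMultiplicity (r w : ZMod q)) := by
    rw [← hcsum fun y => (PhiAt l y).rootMultiplicity y]
    exact hodd
  rw [e1, hoddsum.neg_one_pow] at e2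
  exact absurd e2 (by norm_num)

/-- The version for every prime `q ≥ 7`. -/
theorem inf_of_odd {K : Type} [Field K] [NumberField K] [IsTotallyComplex K]
    (W : WeierstrassCurve (𝓞 K)) (hW : W.Δ ≠ 0) {q : ℕ} (hq : q.Prime) (h7 : 7 ≤ q)
    (hur : ∀ v ∈ Sig q W, (q : 𝓞 K) ∉ v.asIdeal ^ 2)
    (h0 : ∀ v ∈ Sig q W, ¬ JMod W v 0 ∧ ¬ JMod W v 1728)
    (h8 : q % 4 = 1 → ∀ v ∈ Sig q W, ¬ JMod W v 8000)
    (h1 : Odd (Sig q W).ncard) :
    {v : HeightOneSpectrum (𝓞 K) | SSRed W v}.Infinite := by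
  refine main3 ?_ jL_hom jL_sur W hW hq h7 hur h0 h8 h1
  intro p _ hp7 hp4 S hS c hc m hm hm2 hqm r hr hr4 B
  have h9 : p ≠ 9 := by
    rintro rfl
    exact absurd (Fact.out : Nat.Prime 9) (by norm_num)
  exact exists_prime_avg1 (by omega) hp4 S hS c hc hm hm2 hqm hr hr4 B

end Pool.Agent.SS.J
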