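import Mathlib
import Pool.Agent.Work.MP_a5099b_nt.J.Main
import Pool.Agent.Work.MP_a5099b_nt.J.Sur

/-!
# Supersingular places of elliptic curves over totally complex number fields
-/

set_option autoImplicit false

namespace Pool.Agent.SS.J

open NumberField IsDedekindDomain Pool.Agent.SS

theorem result_v1 (K : Type) [Field K] [NumberField K] [IsTotallyComplex K]
    (W : WeierstrassCurve (𝓞 K)) (hW : W.Δ ≠ 0) (q : ℕ) (hq : q.Prime) (h7 : 7 ≤ q)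
    (hq4 : q % 4 = 3)
    (hur : ∀ v ∈ Sig q W, (q : 𝓞 K) ∉ v.asIdeal ^ 2)
    (h0 : ∀ v ∈ Sig q W, ¬ JMod W v 0 ∧ ¬ JMod W v 1728)
    (n0 : ℤ) (h1 : Odd {v ∈ Sig q W | JMod W v n0}.ncard)
    (h2 : ∀ n : ℤ, ¬ n ≡ n0 [ZMOD q] → Even {v ∈ Sig q W | JMod W v n}.ncard) :
    {v : HeightOneSpectrum (𝓞 K) | SSRed W v}.Infinite :=
  main jL_hom jL_sur W hW hq h7 hq4 hur h0 n0 h1 h2

end Pool.Agent.SS.J
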